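import Pool.Agent.H24.TV.Def
import Pool.Agent.H83.TU.RF

/-!
# THEOREM V (MP_e49dc9_ag): geometric definitions

* `StarT D m`: the sections of `D` vanish to order at most `m` along all prime divisors outside a finite set.
* `wrd d l g`: the word `l` in the derivations `d i`, applied to `g`.
* `MaiM X`: Theorems I and II together, with `m`.
-/

set_option autoImplicit false

namespace Pool.Agent.H24.TV

open Pool.Agent.H54.RV Pool.Agent.H83.TU

variable {k K : Type} [Field k] [Field K] [Algebra k K] {X : Mod k K}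

/-- the sections of `D` vanish to order at most `m` along all prime divisors outside a finite set -/
def StarT (D : Cart X) (m : ℕ) : Prop :=
  ∃ T : Set X.P, T.Finite ∧ ∀ P : PDiv X, P.η ∉ T → ∀ s : K, s ≠ 0 → Sec D 1 s → P.p.ord (s * D.eq P.η) ≤ m

/-- the word `l` in the derivations `d i`, applied to `g` -/
def wrd (d : Fin 3 → Derivation k K K) (l : List (Fin 3)) (g : K) : K := l.foldl (fun f i => d i f) g

theorem wrd_nil (d : Fin 3 → Derivation k K K) (g : K) : wrd d [] g = g := rfl

theorem wrd_cons (d : Fin 3 → Derivation k K K) (i : Fin 3) (l : List (Fin 3)) (g : K) :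
    wrd d (i :: l) g = wrd d l (d i g) := rfl

theorem wrd_mem (B : Subalgebra k K) (d : Fin 3 → Derivation k K K) (hdB : ∀ i, ∀ b ∈ B, d i b ∈ B)
    (l : List (Fin 3)) : ∀ g ∈ B, wrd d l g ∈ B := by
  induction l with
  | nil => exact fun g hg => hg
  | cons i l ih => exact fun g hg => ih _ (hdB i g hg)

/-- Theorems I and II together, for sections which vanish to order at most `m` along almost all prime divisors -/
def MaiM (hX : IsVar X) (hg : ∃ g, Gen X g) : Prop :=
  ∀ th : ℝ, 0 < th → ∀ m : ℕ, ∃ N γ : ℕ, ∀ D : Cart X, Ample D → StarT D m → N < h0 D 1 →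
    (1 + th) * vol D < h0 D 1 → ∃ F : IntermediateField k K, Algebra.trdeg F K = 1 ∧ RF hX hg F D ≤ γ ∧
      ∃ M : Cart X, Effective M ∧ ¬ Effective M⁻¹ ∧ RF hX hg F M = 0

end Pool.Agent.H24.TV
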