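/-
MP_e49dc9_ag, THEOREM V (nonvanishing for numerical dimension one, any Picard number): definitions.

StarM k X K L m: a nonzero G in X (x) L vanishes to order at most m at every point Q with
trdeg(kappa(Q) / X) >= 2 (StarOne of H24/TU is the case m = 1).
wset C g m: the words of length at most m in the coefficient derivations dX (C.d i), applied to g.
-/
import Pool.Agent.H24.TU.Def

open scoped TensorProduct

namespace Pool.Agent.H24.TV

open Pool.Agent.H24.TU

universe u

/-- (*m): a nonzero G in X (x) L vanishes to order at most m at every point Q with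
trdeg(kappa(Q) / X) >= 2. -/
def StarM (k X K : Type u) [Field k] [Field X] [Field K] [Algebra k X] [Algebra k K]
    (L₁ : Submodule k K) (m : ℕ) : Prop :=
  ∀ G ∈ L₁.baseChange X, G ≠ 0 → ∀ Q : Ideal (X ⊗[k] K), Q.IsPrime →
    2 ≤ Algebra.trdeg X ((X ⊗[k] K) ⧸ Q) → ¬ OrdGE Q (m + 1) G

/-- The words of length at most m in the coefficient derivations of the coordinates, applied
to g. -/
def wset {k K : Type u} [Field k] [Field K] [Algebra k K] (C : Coord k K) (g : K ⊗[k] K) :
    ℕ → Set (K ⊗[k] K)
  | 0 => {g}
  | m + 1 => wset C g m ∪ ⋃ i : Fin 3, (fun q => dX K (C.d i) q) '' wset C g m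

end Pool.Agent.H24.TV
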