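import Pool.Agent.H24.TV.GDef
import Pool.Agent.H20.TU.DVQ

/-!
# [H24 TV DvM] THEOREM V (MP_e49dc9_ag): order at least `m + 1` at a prime of codimension one

As `H20/TU/DVQ.lean` (`dvq`), all words of length at most `m` of `g` are in `q`; conclusion `g / π ^ (m + 1) ∈ O`.

Proof.  `m = 0`: the first part of the proof of `dvq` (it uses only `g ∈ q`): copy it (`O` is a discrete valuation ring:
every irreducible element divides every nonunit).  General `m`: `O` is a discrete valuation ring with uniformizer `π`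
(first part).  Suppose `g / π ^ (m + 1) ∉ O`; then `g = π ^ r * u` with `u` a unit of `O` and `1 ≤ r ≤ m`.
Some `d i π` is a unit of `O`: otherwise choose `s ∈ B` a unit of `O` with `π * s ∈ B` (`hfr`), apply `dvq` to `π * s`
(`d i (π * s) = π * d i s + s * d i π` is a nonunit, so in `q`): `(π * s) / π' ^ 2 ∈ O` for a nonunit `π'`, impossible (`π'` is
divisible by `π`, so `s / π ∈ O` up to a factor).
The derivations preserve `O` (`hdO` in the proof of `dvq`).  Claim: for `u` a unit of `O` and `s ≥ 1`,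
`d i (π ^ s * u) = π ^ (s - 1) * u'` with `u' = s * u * d i π + π * d i u` a unit (`s ≠ 0` in `k`, characteristic `0`).  So the word
`i, i, .., i` (`r` times, `List.replicate r i`) of `g` is a unit of `O`, but it is in `q`: contradiction.
-/

set_option autoImplicit false

namespace Pool.Agent.H24.TV

open Pool.Agent.H54.RV Pool.Agent.H20.TU

private theorem dvm_irr {k K : Type} [Field k] [Field K] [Algebra k K] (htr : Algebra.trdeg k K ≤ 3)
    (B O : Subalgebra k K) (hBO : B ≤ O) [IsLocalRing O]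
    [UniqueFactorizationMonoid O] (hfr : ∀ x ∈ O, ∃ s ∈ B, Un O s ∧ x * s ∈ B) (q : Ideal B) [q.IsPrime]
    (hqO : ∀ a : B, a ∈ q ↔ ¬ Un O (a : K)) (t : Fin 2 → B)
    (ht : AlgebraicIndependent k (fun i => Ideal.Quotient.mk q (t i))) :
    ∀ p : O, Irreducible p → ∀ x ∈ O, ¬ Un O x → ∃ y ∈ O, x = p * y := by
  classical
  -- four algebraically independent elements do not exist
  have hfour : ∀ y : Option (Option (Fin 2)) → K, ¬ AlgebraicIndependent k y := by
    intro y hy
    have h1 := hy.cardinalMk_le_trdeg.trans htr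
    simp at h1
    norm_num at h1
  -- the maximal ideal of `O`
  have hnu : ∀ x ∈ O, ¬ Un O x → ∀ s ∈ B, Un O s → ∀ h : x * s ∈ B, (⟨x * s, h⟩ : B) ∈ q := by
    intro x hx hxu s hs hsu h
    rw [hqO]
    intro h1
    apply hxu
    have h2 : Un O (x * s * s⁻¹) := Un.mul h1 (Un.inv hsu)
    rwa [mul_assoc, mul_inv_cancel₀ hsu.1, mul_one] at h2
  have hnadd : ∀ x ∈ O, ¬ Un O x → ∀ y ∈ O, ¬ Un O y → ¬ Un O (x + y) := by
    intro x hx hxu y hy hyu h
    have h1 : ¬ IsUnit (⟨x, hx⟩ : O) := fun h => hxu ((isUnit_iff _).1 h)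
    have h2 : ¬ IsUnit (⟨y, hy⟩ : O) := fun h => hyu ((isUnit_iff _).1 h)
    have h3 : IsUnit (⟨x, hx⟩ + ⟨y, hy⟩ : O) := (isUnit_iff _).2 h
    rcases IsLocalRing.isUnit_or_isUnit_of_isUnit_add h3 with h4 | h4
    · exact h1 h4
    · exact h2 h4
  have hnmul : ∀ x ∈ O, ∀ y ∈ O, ¬ Un O y → ¬ Un O (x * y) := by
    intro x hx y hy hyu h
    apply hyu
    have h1 : IsUnit ((⟨x, hx⟩ : O) * ⟨y, hy⟩) := (isUnit_iff _).2 h
    exact (isUnit_iff _).1 (isUnit_of_mul_isUnit_right h1)
  -- every irreducible element divides every nonunit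
  have hirr : ∀ p : O, Irreducible p → ∀ x ∈ O, ¬ Un O x → ∃ y ∈ O, x = p * y := by
    intro p hp x hx hxu
    have hprime : Prime p := UniqueFactorizationMonoid.irreducible_iff_prime.1 hp
    have hp0 : (p : K) ≠ 0 := fun h => hprime.ne_zero (Subtype.ext h)
    let ι : B →+* O := (Subalgebra.inclusion hBO : B →ₐ[k] O)
    let q' : Ideal B := (Ideal.span {p}).comap ι
    have hspan : (Ideal.span {p}).IsPrime := (Ideal.span_singleton_prime hprime.ne_zero).2 hprime
    have hq' : q'.IsPrime := Ideal.IsPrime.comap ι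
    have hle : q' ≤ q := by
      intro b hb
      rw [hqO]
      intro hu
      have h1 : IsUnit (ι b) := (isUnit_iff _).2 hu
      rw [Ideal.mem_comap, Ideal.mem_span_singleton] at hb
      exact hprime.not_isUnit (isUnit_of_dvd_unit hb h1)
    have hge : q ≤ q' := by
      by_contra hcon
      obtain ⟨b, hb, hb'⟩ := SetLike.not_le_iff_exists.1 hcon
      -- a nonzero element of `q'`
      obtain ⟨s, hs, hsu, hps⟩ := hfr p p.2
      have h1 : (⟨(p : K) * s, hps⟩ : B) ∈ q' := by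
        rw [Ideal.mem_comap, Ideal.mem_span_singleton]
        exact ⟨⟨s, hBO hs⟩, Subtype.ext rfl⟩
      have h10 : (⟨(p : K) * s, hps⟩ : B) ≠ 0 := fun h => mul_ne_zero hp0 hsu.1 (congrArg Subtype.val h)
      have hdom : IsDomain (B ⧸ q') := Ideal.Quotient.isDomain q'
      -- first step: in `B/q'`
      let f : (B ⧸ q') →ₐ[k] (B ⧸ q) := Ideal.Quotient.factorₐ k hle
      have hf : ∀ z : B, f (Ideal.Quotient.mk q' z) = Ideal.Quotient.mk q z := fun z => rfl
      have h2 : AlgebraicIndependent k (fun i => f (Ideal.Quotient.mk q' (t i))) := ht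
      have h3 : AlgebraicIndependent k (fun o : Option (Fin 2) => o.elim (Ideal.Quotient.mk q' b)
          (fun i => Ideal.Quotient.mk q' (t i))) :=
        option_ind f h2 (by rw [hf]; exact Ideal.Quotient.eq_zero_iff_mem.2 hb)
          (fun h => hb' (Ideal.Quotient.eq_zero_iff_mem.1 h))
      have h4 : AlgebraicIndependent k (fun o : Option (Fin 2) => Ideal.Quotient.mk q' (o.elim b t)) := by
        convert h3 using 1
        funext o
        cases o <;> rfl
      have h5 := option_ind (Ideal.Quotient.mkₐ k q') h4 (Ideal.Quotient.eq_zero_iff_mem.2 h1) h10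
      have h6 := h5.map' (f := B.val) Subtype.val_injective
      exact hfour _ h6
    obtain ⟨s, hs, hsu, hxs⟩ := hfr x hx
    have h1 := hge (hnu x hx hxu s hs hsu hxs)
    rw [Ideal.mem_comap, Ideal.mem_span_singleton] at h1
    obtain ⟨y, hy⟩ := h1
    refine ⟨y * s⁻¹, O.mul_mem y.2 hsu.2.2, ?_⟩
    have h2 : x * s = p * y := congrArg Subtype.val hy
    rw [← mul_assoc, ← h2, mul_assoc, mul_inv_cancel₀ hsu.1, mul_one]
  exact hirr

private theorem dvm_add {k K : Type} [Field k] [Field K] [Algebra k K] (O : Subalgebra k K) [IsLocalRing O] :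
    ∀ x ∈ O, ¬ Un O x → ∀ y ∈ O, ¬ Un O y → ¬ Un O (x + y) := by
  intro x hx hxu y hy hyu h
  have h1 : ¬ IsUnit (⟨x, hx⟩ : O) := fun h => hxu ((isUnit_iff _).1 h)
  have h2 : ¬ IsUnit (⟨y, hy⟩ : O) := fun h => hyu ((isUnit_iff _).1 h)
  have h3 : IsUnit (⟨x, hx⟩ + ⟨y, hy⟩ : O) := (isUnit_iff _).2 h
  rcases IsLocalRing.isUnit_or_isUnit_of_isUnit_add h3 with h4 | h4
  · exact h1 h4
  · exact h2 h4

private theorem dvm_mul {k K : Type} [Field k] [Field K] [Algebra k K] (O : Subalgebra k K) :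
    ∀ x ∈ O, ∀ y ∈ O, ¬ Un O y → ¬ Un O (x * y) := by
  intro x hx y hy hyu h
  apply hyu
  have h1 : IsUnit ((⟨x, hx⟩ : O) * ⟨y, hy⟩) := (isUnit_iff _).2 h
  exact (isUnit_iff _).1 (isUnit_of_mul_isUnit_right h1)

/-- a word of length `r` in a derivation with `d i p` a unit, applied to `p ^ r * u`, `u` a unit -/
private theorem dvm_word {k K : Type} [Field k] [Field K] [Algebra k K] [CharZero k] (O : Subalgebra k K)
    [IsLocalRing O] (d : Fin 3 → Derivation k K K) (hdO : ∀ i, ∀ x ∈ O, d i x ∈ O) (p : K) (hp : p ∈ O)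
    (hpu : ¬ Un O p) (i : Fin 3) (hi : Un O (d i p)) (r : ℕ) :
    ∀ u : K, Un O u → Un O (wrd d (List.replicate r i) (p ^ r * u)) := by
  induction r with
  | zero =>
    intro u hu
    rw [List.replicate_zero, wrd_nil, pow_zero, one_mul]
    exact hu
  | succ r ih =>
    intro u hu
    rw [List.replicate_succ, wrd_cons]
    have h1 : d i (p ^ (r + 1) * u) = p ^ r * (algebraMap k K ((r : k) + 1) * u * d i p + p * d i u) := by
      rw [Derivation.leibniz, Derivation.leibniz_pow]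
      simp only [smul_eq_mul, nsmul_eq_mul, Nat.add_sub_cancel, map_add, map_natCast, map_one, Nat.cast_add,
        Nat.cast_one]
      ring
    rw [h1]
    apply ih
    have hr0 : (r : k) + 1 ≠ 0 := by exact_mod_cast Nat.succ_ne_zero r
    have hc : Un O (algebraMap k K ((r : k) + 1)) := by
      refine ⟨(map_ne_zero _).2 hr0, O.algebraMap_mem _, ?_⟩
      rw [← map_inv₀]
      exact O.algebraMap_mem _
    have hA : Un O (algebraMap k K ((r : k) + 1) * u * d i p) := Un.mul (Un.mul hc hu) hi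
    have hB : ¬ Un O (-(p * d i u)) := by
      have h2 : -(p * d i u) = (-(d i u)) * p := by ring
      rw [h2]
      exact dvm_mul O _ (O.neg_mem (hdO i _ hu.2.1)) _ hp hpu
    by_contra hcon
    apply dvm_add O _ (O.add_mem hA.2.1 (O.mul_mem hp (hdO i _ hu.2.1))) hcon _
      (O.neg_mem (O.mul_mem hp (hdO i _ hu.2.1))) hB
    have h3 : algebraMap k K ((r : k) + 1) * u * d i p + p * d i u + -(p * d i u) =
        algebraMap k K ((r : k) + 1) * u * d i p := by ring
    rw [h3]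
    exact hA

theorem dvqM {k K : Type} [Field k] [Field K] [Algebra k K] [CharZero k] (htr : Algebra.trdeg k K ≤ 3)
    (B O : Subalgebra k K) (hBO : B ≤ O) [IsLocalRing O]
    [UniqueFactorizationMonoid O] (hfr : ∀ x ∈ O, ∃ s ∈ B, Un O s ∧ x * s ∈ B) (q : Ideal B) [q.IsPrime]
    (hqO : ∀ a : B, a ∈ q ↔ ¬ Un O (a : K)) (t : Fin 2 → B)
    (ht : AlgebraicIndependent k (fun i => Ideal.Quotient.mk q (t i)))
    (c : Fin 3 → K) (hc : ∀ i, c i ∈ B)
    (d : Fin 3 → Derivation k K K) (hd : ∀ i j, d i (c j) = if i = j then 1 else 0)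
    (hdB : ∀ i, ∀ b ∈ B, d i b ∈ B) (m : ℕ) (g : K) (hg0 : g ≠ 0) (hgB : g ∈ B)
    (hdg : ∀ l : List (Fin 3), l.length ≤ m → (⟨wrd d l g, wrd_mem B d hdB l g hgB⟩ : B) ∈ q) :
    IsDiscreteValuationRing O ∧ ∃ π ∈ O, ¬ Un O π ∧ π ≠ 0 ∧ g / π ^ (m + 1) ∈ O := by
  classical
  have hirr := dvm_irr htr B O hBO hfr q hqO t ht
  have hnadd := dvm_add O
  have hnmul := dvm_mul O
  have hgq : (⟨g, hgB⟩ : B) ∈ q := hdg [] (Nat.zero_le m)
  have hgO : g ∈ O := hBO hgB
  have hgu : ¬ Un O g := (hqO ⟨g, hgB⟩).1 hgq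
  obtain ⟨p, hp, hpg⟩ := WfDvdMonoid.exists_irreducible_factor (a := (⟨g, hgO⟩ : O))
    (fun h => hgu ((isUnit_iff _).1 h)) (fun h => hg0 (congrArg Subtype.val h))
  have hprime : Prime p := UniqueFactorizationMonoid.irreducible_iff_prime.1 hp
  have hp0 : (p : K) ≠ 0 := fun h => hprime.ne_zero (Subtype.ext h)
  have hpu : ¬ Un O (p : K) := fun h => hprime.not_isUnit ((isUnit_iff _).2 h)
  have hdvr : IsDiscreteValuationRing O := by
    refine IsDiscreteValuationRing.of_ufd_of_unique_irreducible ⟨p, hp⟩ ?_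
    intro p1 p2 h1 h2
    have hu1 : ¬ Un O (p1 : K) := fun h => h1.not_isUnit ((isUnit_iff _).2 h)
    have hu2 : ¬ Un O (p2 : K) := fun h => h2.not_isUnit ((isUnit_iff _).2 h)
    obtain ⟨y1, hy1, e1⟩ := hirr p1 h1 p2 p2.2 hu2
    obtain ⟨y2, hy2, e2⟩ := hirr p2 h2 p1 p1.2 hu1
    exact associated_of_dvd_dvd ⟨⟨y1, hy1⟩, Subtype.ext e1⟩ ⟨⟨y2, hy2⟩, Subtype.ext e2⟩
  refine ⟨hdvr, p, p.2, hpu, hp0, ?_⟩
  by_contra hcon
  -- the derivations preserve `O`
  have hdO : ∀ i, ∀ x ∈ O, d i x ∈ O := by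
    intro i x hx
    obtain ⟨s, hs, hsu, hxs⟩ := hfr x hx
    have h1 : d i (x * s) = x * d i s + s * d i x := by
      rw [Derivation.leibniz]; simp [smul_eq_mul]
    have h2 : d i x = (d i (x * s) - x * d i s) * s⁻¹ := by
      rw [h1]
      field_simp [hsu.1]
      ring
    rw [h2]
    exact O.mul_mem (O.sub_mem (hBO (hdB i _ hxs)) (O.mul_mem hx (hBO (hdB i _ hs)))) hsu.2.2
  -- some derivative of `p` is a unit
  obtain ⟨i, hi⟩ : ∃ i, Un O (d i (p : K)) := by
    by_contra hall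
    push Not at hall
    obtain ⟨s, hs, hsu, hps⟩ := hfr p p.2
    have hsp0 : (p : K) * s ≠ 0 := mul_ne_zero hp0 hsu.1
    have hmem : ∀ x : K, ∀ hx : x ∈ B, ¬ Un O x → (⟨x, hx⟩ : B) ∈ q := fun x hx hxu => (hqO _).2 hxu
    obtain ⟨-, π, hπ, hπu, hπ0, hdiv⟩ := dvq htr B O hBO hfr q hqO t ht c hc d hd hdB ((p : K) * s) hsp0 hps
      (hmem _ _ (by rw [mul_comm]; exact hnmul _ (hBO hs) _ p.2 hpu)) (by
        intro i
        apply hmem
        have h1 : d i ((p : K) * s) = d i s * p + s * d i p := by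
          rw [Derivation.leibniz]; simp only [smul_eq_mul]; ring
        rw [h1]
        exact hnadd _ (O.mul_mem (hdO i _ (hBO hs)) p.2) (hnmul _ (hdO i _ (hBO hs)) _ p.2 hpu) _
          (O.mul_mem (hBO hs) (hdO i _ p.2)) (hnmul _ (hBO hs) _ (hdO i _ p.2) (hall i)))
    obtain ⟨y, hy, e⟩ := hirr p hp π hπ hπu
    have hy0 : y ≠ 0 := by
      rintro rfl
      rw [mul_zero] at e
      exact hπ0 e
    have h2 : s = (p : K) * s / π ^ 2 * y ^ 2 * p := by
      rw [e]
      field_simp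
    have h3 : ¬ Un O ((p : K) * s / π ^ 2 * y ^ 2 * p) :=
      hnmul _ (O.mul_mem hdiv (O.pow_mem hy 2)) _ p.2 hpu
    rw [← h2] at h3
    exact h3 hsu
  -- the order of `g`
  obtain ⟨r, u, hru⟩ := IsDiscreteValuationRing.eq_unit_mul_pow_irreducible
    (x := (⟨g, hgO⟩ : O)) (fun h => hg0 (congrArg Subtype.val h)) hp
  have hg : g = (p : K) ^ r * ((u : O) : K) := by
    have h1 := congrArg (fun x : O => (x : K)) hru
    simp only [MulMemClass.coe_mul, SubmonoidClass.coe_pow] at h1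
    rw [h1, mul_comm]
  have huu : Un O ((u : O) : K) := (isUnit_iff _).1 u.isUnit
  have hrm : r ≤ m := by
    by_contra hlt
    apply hcon
    have h1 : g / (p : K) ^ (m + 1) = (p : K) ^ (r - (m + 1)) * ((u : O) : K) := by
      rw [hg, div_eq_iff (pow_ne_zero _ hp0)]
      have h2 : r = (r - (m + 1)) + (m + 1) := by omega
      conv_lhs => rw [h2]
      rw [pow_add]
      ring
    rw [h1]
    exact O.mul_mem (O.pow_mem p.2 _) huu.2.1
  have hw := dvm_word O d hdO (p : K) p.2 hpu i hi r _ huu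
  rw [← hg] at hw
  have h1 := hdg (List.replicate r i) (by rw [List.length_replicate]; exact hrm)
  exact (hqO _).1 h1 hw

end Pool.Agent.H24.TV
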