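import Pool.Agent.H24.TV.MaM
import Pool.Agent.H83.TU.Fin
import Pool.Agent.H83.TK.SubE

/-!
# [H24 TV FinV] THEOREM V (MP_e49dc9_ag): nef divisors of numerical dimension one, any Picard number

`star_of`: `y` an additive integral function on the Cartier divisors, which vanishes on the numerically trivial ones and is
nonnegative on the effective ones; there is a finite set `T` such that `0 < y E` for every effective divisor `E` which
contains a prime divisor `P` with `P.η ∉ T`.  Then `StarT D m` if `y D ≤ m`.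
Proof: `P` with `P.η ∉ T`, `0 ≠ s` a section of `D`, `r` the order of `s * D.eq P.η` at `P`, `r ≥ 1` without loss.  `pdiv_eq`
(`H83/TK/SubE.lean`): an effective `S` with `P.p.ord (S.eq x) = 1` and `a / S.eq x ∈ O x` for all `a ∈ O x` of positive order at the points
`x` of `P`, `S.eq x = 1` at the other points.  `(s) * D * (S⁻¹) ^ r` is effective: for `x` in the closure of `P.η`, the order of
`s * D.eq x` is `r` (`quo_un`: `D.eq x / D.eq P.η` is a unit at `P.η`), divide `r` times by `S.eq x`.  So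
`0 ≤ y (prin s) + y D - r * y S` (`y (prin s) = 0`: `numz_prin`), and `y S ≥ 1`, so `r ≤ y D`.

`theoremV`: `0 ≤ y D`, `y N = 0`, `D + n N` ample for all `n`, and for a `th > 0` infinitely many `n` with `h0` larger than any
given bound and `(1 + th) vol < h0`.  Proof: `m := (y D).toNat`; `maiM` gives `N₀`, `γ`; choose `n ≥ γ + 1` with
`h0 > N₀`; `F` with `R_F (D + n N) ≤ γ`.  `rfun_rf h.var h.gen hUF F hF : RFun (RF ..)`: `R_F (D + n N) = R_F D + n R_F N`, `R_F D > 0`,
and `R_F N ≥ 0` (otherwise `R_F (D + n' N) < 0` for large `n'`, but it is ample: `RFun.amp`).  So `n R_F N < γ < n`, `R_F N = 0`.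
-/

set_option autoImplicit false

namespace Pool.Agent.H24.TV

open Pool.Agent.H54.RV Pool.Agent.H83.TU Pool.Agent.H24.TU Pool.Agent.H20.TU Pool.Agent.H39.TU

variable {k K : Type} [Field k] [Field K] [Algebra k K] {X : Mod k K}

/-- a weight: additive, zero on numerically trivial divisors, nonnegative on effective divisors, positive on the
effective divisors which contain a prime divisor outside the finite set `T` -/
structure Wt (y : Cart X → ℤ) (T : Set X.P) : Prop where
  add : ∀ D E, y (D * E) = y D + y E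
  num : ∀ D, NumZ D → y D = 0
  eff : ∀ D, Effective D → 0 ≤ y D
  fin : T.Finite
  pos : ∀ P : PDiv X, P.η ∉ T → ∀ E : Cart X, Effective E → ¬ Un (X.O P.η) (E.eq P.η) → 0 < y E

private theorem finv_one {y : Cart X → ℤ} {T : Set X.P} (hy : Wt y T) : y 1 = 0 := by
  have h1 := hy.add 1 1
  rw [mul_one] at h1
  omega

private theorem finv_inv {y : Cart X → ℤ} {T : Set X.P} (hy : Wt y T) (S : Cart X) : y S⁻¹ = - y S := by
  have h1 := hy.add S S⁻¹
  rw [mul_inv_cancel, finv_one hy] at h1
  omega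

private theorem finv_pow {y : Cart X → ℤ} {T : Set X.P} (hy : Wt y T) (S : Cart X) (n : ℕ) :
    y (S ^ n) = n * y S := by
  induction n with
  | zero =>
    rw [pow_zero, finv_one hy]
    simp
  | succ n ih =>
    rw [pow_succ, hy.add, ih]
    push_cast
    ring

private theorem finv_rf {R : Cart X → ℤ} (hR : RFun R) (S : Cart X) (n : ℕ) :
    R (S ^ n) = n * R S := by
  induction n with
  | zero =>
    have h1 := hR.add 1 1
    rw [mul_one] at h1
    rw [pow_zero]
    simp only [Nat.cast_zero, zero_mul]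
    omega
  | succ n ih =>
    rw [pow_succ, hR.add, ih]
    push_cast
    ring

private theorem finv_ord (h : Hyp X) {y : Cart X → ℤ} {T : Set X.P} (hy : Wt y T) (P : PDiv X)
    (hP : P.η ∉ T) (r : ℕ) : ∀ E : Cart X, Effective E → P.p.ord (E.eq P.η) = r → (r : ℤ) ≤ y E := by
  obtain ⟨S, hS1, hS2, hS3⟩ := pdiv_cart h P
  have hyS : 0 < y S := by
    refine hy.pos P hP S hS1 fun hu => ?_
    have h1 : P.p.ord (S.eq P.η) = 0 :=
      (ord_eq_zero P.p _ hu.1).2 ⟨(P.mem _).1 hu.2.1, (P.mem _).1 hu.2.2⟩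
    rw [hS2] at h1
    exact one_ne_zero h1
  induction r with
  | zero =>
    intro E hE _
    exact_mod_cast hy.eff E hE
  | succ r ih =>
    intro E hE hr
    have h1 := ih (E * S⁻¹) (hS3 E hE (by rw [hr]; positivity)) (by
      rw [mul_eq, inv_eq, ord_mul P.p _ _ (E.ne _) (inv_ne_zero (S.ne _)), ord_inv, hr, hS2]
      push_cast
      ring)
    rw [hy.add, finv_inv hy] at h1
    push_cast
    omega

theorem star_of (h : Hyp X) {y : Cart X → ℤ} {T : Set X.P} (hy : Wt y T) (D : Cart X) (m : ℕ) (hm : y D ≤ m) :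
    StarT D m := by
  refine ⟨T, hy.fin, fun P hP s hs0 hs => ?_⟩
  have hE : Effective (prin X s hs0 * D) := fun x => by
    have h1 := hs x
    rw [pow_one] at h1
    rw [mul_eq]
    exact h1
  have hq : (prin X s hs0 * D).eq P.η = s * D.eq P.η := rfl
  have h0 : 0 ≤ P.p.ord (s * D.eq P.η) := by
    rw [ord_nonneg P.p _ (mul_ne_zero hs0 (D.ne _)), ← hq]
    exact (P.mem _).1 (hE P.η)
  obtain ⟨r, hr⟩ := Int.eq_ofNat_of_zero_le h0
  have h2 := finv_ord h hy P hP r _ hE (by rw [hq]; exact hr)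
  rw [hy.add, hy.num _ (numz_prin s hs0), zero_add] at h2
  rw [hr]
  exact h2.trans hm

/-- **Theorem V** -/
theorem theoremV [IsAlgClosed k] [CharZero k] (h : Hyp X) (hsm : ∀ x, SmP X x) {y : Cart X → ℤ} {T : Set X.P}
    (hy : Wt y T) (D N : Cart X) (hDN : ∀ n : ℕ, Ample (D * N ^ n)) (hyN : y N = 0) (th : ℝ) (hth : 0 < th)
    (hh : ∀ B : ℕ, ∃ n ≥ B, B < h0 (D * N ^ n) 1 ∧ (1 + th) * vol (D * N ^ n) < h0 (D * N ^ n) 1) :
    ∃ F : IntermediateField k K, Algebra.trdeg F K = 1 ∧ RF h.var h.gen F N = 0 ∧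
      ∃ M : Cart X, Effective M ∧ ¬ Effective M⁻¹ ∧ RF h.var h.gen F M = 0 := by
  obtain ⟨N₀, γ, hmai⟩ := maiM h (gf h.var h.gen h.tr) (un_all h.var) (uf_all h.var) hsm th hth (y D).toNat
  obtain ⟨n, hn, hn1, hn2⟩ := hh (max N₀ (γ + 1))
  have hyn : y (D * N ^ n) ≤ ((y D).toNat : ℤ) := by
    rw [hy.add, finv_pow hy, hyN, mul_zero, add_zero]
    exact Int.self_le_toNat _
  obtain ⟨F, hF, hFγ, hM⟩ := hmai (D * N ^ n) (hDN n) (star_of h hy _ _ hyn)
    (lt_of_le_of_lt (le_max_left _ _) hn1) hn2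
  refine ⟨F, hF, ?_, hM⟩
  have hR : RFun (RF h.var h.gen F) := rfun_rf h.var h.gen (uf_all h.var) F hF
  have hRn : ∀ j : ℕ, RF h.var h.gen F (D * N ^ j) = RF h.var h.gen F D + j * RF h.var h.gen F N := fun j => by
    rw [hR.add, finv_rf hR]
  have hRp : ∀ j : ℕ, 0 < RF h.var h.gen F D + j * RF h.var h.gen F N := fun j => by
    rw [← hRn]
    exact hR.amp _ (hDN j)
  have hD0 : 0 < RF h.var h.gen F D := by
    have h1 := hRp 0
    simpa using h1
  have hγn : (γ : ℤ) + 1 ≤ n := by
    have h1 : γ + 1 ≤ n := (le_max_right _ _).trans hn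
    exact_mod_cast h1
  rw [hRn] at hFγ
  rcases lt_trichotomy (RF h.var h.gen F N) 0 with hneg | hz | hpos
  · exfalso
    have h1 := hRp (RF h.var h.gen F D).toNat
    rw [Int.toNat_of_nonneg hD0.le] at h1
    nlinarith
  · exact hz
  · exfalso
    have h1 : (n : ℤ) ≤ n * RF h.var h.gen F N := by
      have h2 : (0 : ℤ) ≤ n := Nat.cast_nonneg n
      nlinarith
    omega

end Pool.Agent.H24.TV
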