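import Pool.Agent.H24.TV.Def
import Pool.Agent.H39.TU.GUU

/-!
# [H24 TV GuM] THEOREM V (MP_e49dc9_ag), case B: a section of high order which does not vanish on the curve

As `H39/TU/GUU.lean` (`exists_u`), with `StarM` instead of `StarOne`.

`exists_word`: `P` a prime of `κ ⊗ K`, `G : κ ⊗ L` with image not in `SmGE P (m + 1)`, and
`j.baseChange κ G ∈ mp φ ^ τ`: there is `u : κ ⊗ L` with `j.baseChange κ u ∈ mp φ ^ (τ - m)` and image not in `P`.
Proof by induction on `m`.  If the image of `G` is not in `P` take `u = G` (`Ideal.pow_le_pow_right`).  Otherwise, `m ≥ 1`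
(for `m = 0` the negation of `SmGE P 1` says that the image is not in `P`) and there is `θ` such that
`dX K θ (image of G)` is not in `SmGE P m`; it is the image of `G' = LinearMap.rTensor L θ.toLinearMap G` (`sub_dX`), and
`j.baseChange κ G' = dR R θ (j.baseChange κ G) ∈ mp φ ^ (τ - 1)` (`j_dR`, `dR_pow`; if `τ = 0` it is trivial).
`exists_uM`: `exists_section` gives `G₀ ≠ 0` with `j.baseChange κ G₀ ∈ mp φ ^ τ`; its image is not `0` (`sub_inj`), so by
`StarM` not `OrdGE (ptI a z) (m + 1)`, so not `SmGE (ptI a z) (m + 1)` (`ordGE_of_smGE`).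
-/

set_option autoImplicit false

namespace Pool.Agent.H24.TV

open scoped TensorProduct
open Pool.Agent.H24.TU Pool.Agent.H39.TU

variable {k K κ R : Type} [Field k] [Field K] [Algebra k K] [Field κ] [Algebra k κ] [CommRing R] [Algebra k R]

theorem exists_word (L : Submodule k K) (j : L →ₗ[k] R) (φ : R →ₐ[k] κ) (P : Ideal (κ ⊗[k] K)) (m : ℕ) :
    ∀ (τ : ℕ) (G : κ ⊗[k] L), ¬ SmGE P (m + 1) (L.subtype.baseChange κ G) → j.baseChange κ G ∈ mp φ ^ τ →
      ∃ u : κ ⊗[k] L, j.baseChange κ u ∈ mp φ ^ (τ - m) ∧ L.subtype.baseChange κ u ∉ P := by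
  induction m with
  | zero =>
    intro τ G hG hGm
    refine ⟨G, hGm, fun hP => hG ⟨hP, fun _ => trivial⟩⟩
  | succ m ih =>
    intro τ G hG hGm
    by_cases hP : L.subtype.baseChange κ G ∈ P
    · have h1 : ∃ θ : Derivation k κ κ, ¬ SmGE P (m + 1) (dX K θ (L.subtype.baseChange κ G)) := by
        by_contra hcon
        push Not at hcon
        exact hG ⟨hP, hcon⟩
      obtain ⟨θ, hθ⟩ := h1
      have h2 : j.baseChange κ (LinearMap.rTensor L θ.toLinearMap G) ∈ mp φ ^ (τ - 1) := by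
        rw [j_dR]
        rcases Nat.eq_zero_or_pos τ with h3 | h3
        · subst h3
          simp
        · obtain ⟨n, rfl⟩ : ∃ n, τ = n + 1 := ⟨τ - 1, by omega⟩
          exact dR_pow θ (mp φ) n _ hGm
      obtain ⟨u, hu1, hu2⟩ := ih (τ - 1) (LinearMap.rTensor L θ.toLinearMap G)
        (by rw [sub_dX]; exact hθ) h2
      refine ⟨u, ?_, hu2⟩
      have h4 : τ - 1 - m = τ - (m + 1) := by omega
      rw [h4] at hu1
      exact hu1
    · exact ⟨G, Ideal.pow_le_pow_right (by omega) hGm, hP⟩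

theorem exists_uM [CharZero k] [Algebra.EssFiniteType k κ] (L : Submodule k K) [Module.Finite k L]
    (j : L →ₗ[k] R) (φ : R →ₐ[k] κ) (c : Fin 3 → R)
    (hc : Submodule.span R (Set.range fun i => KaehlerDifferential.D k R (c i)) = ⊤) (τ : ℕ)
    (hτ : (τ + 2).choose 3 < Module.finrank k L)
    {E : Type} [Field E] [Algebra k E] (a : κ →ₐ[k] E) (z : K →ₐ[k] E)
    (htr : 2 ≤ Algebra.trdeg κ ((κ ⊗[k] K) ⧸ ptI a z)) {m : ℕ} (hst : StarM k κ K L m) :
    ∃ u : κ ⊗[k] L, j.baseChange κ u ∈ mp φ ^ (τ - m) ∧ pt a z (L.subtype.baseChange κ u) ≠ 0 := by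
  obtain ⟨G₀, hG0, hGm⟩ := exists_section φ c hc j τ hτ
  have hGne : L.subtype.baseChange κ G₀ ≠ 0 := by
    intro h
    exact hG0 (sub_inj L (by rw [h, map_zero]))
  have hGmem : L.subtype.baseChange κ G₀ ∈ L.baseChange κ := by
    rw [Submodule.baseChange]
    exact ⟨G₀, rfl⟩
  have h1 : ¬ SmGE (ptI a z) (m + 1) (L.subtype.baseChange κ G₀) := fun h =>
    hst _ hGmem hGne (ptI a z) inferInstance htr (ordGE_of_smGE inferInstance (m + 1) h)
  obtain ⟨u, hu1, hu2⟩ := exists_word L j φ (ptI a z) m τ G₀ h1 hGm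
  exact ⟨u, hu1, fun h => hu2 (mem_ptI.2 h)⟩

end Pool.Agent.H24.TV
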