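/-
MP_e49dc9_ag, THEOREM V, module [H24 TV TrM]: transitivity with (*m).

The proof is the proof of transitivity in TU/Trans.lean with 2 replaced by m + 1: in the last step
Q0 := comap (chg x) Q has OrdGE Q0 (m + 1) g, and if Q0 <> P then 2 <= trdeg (R/Q0)
(two_le_trdeg): contradiction to StarM. The private lemmas of TU/Trans.lean (tr_words, tr_repr,
tr_smul, tr_chg, tr_comap_x, tr_comap_y) have to be copied (private, other prefix); span_ord is
public.
-/
import Pool.Agent.H24.TV.Def
import Pool.Agent.H24.TU.Trans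

open scoped TensorProduct

namespace Pool.Agent.H24.TV

open Pool.Agent.H24.TU

universe u

variable {k K κ : Type u} [Field k] [Field K] [Field κ] [Algebra k K] [Algebra k κ]

private theorem trM_smul {X : Type u} [Field X] [Algebra k X] (c : X) (v : X ⊗[k] K) :
    c • v = (c ⊗ₜ[k] (1 : K)) * v := by
  rw [Algebra.smul_def, Algebra.TensorProduct.algebraMap_apply]
  rfl

private theorem trM_chg {X X' : Type u} [Field X] [Algebra k X] [Field X'] [Algebra k X']
    (φ : X →ₐ[k] X') (L' : Submodule k K) {u : X ⊗[k] K} (hu : u ∈ L'.baseChange X) :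
    chg K φ u ∈ L'.baseChange X' := by
  rw [Submodule.baseChange_eq_span] at hu
  induction hu using Submodule.span_induction with
  | mem v hv =>
    obtain ⟨f, hf, rfl⟩ := hv
    show chg K φ ((1 : X) ⊗ₜ[k] f) ∈ _
    rw [chg_tmul]
    exact Submodule.tmul_mem_baseChange_of_mem _ hf
  | zero => rw [map_zero]; exact Submodule.zero_mem _
  | add a b _ _ ha hb => rw [map_add]; exact Submodule.add_mem _ ha hb
  | smul c v _ hv =>
    have h : chg K φ (c • v) = φ c • chg K φ v := by
      rw [trM_smul, map_mul, chg_tmul, trM_smul]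
    rw [h]
    exact Submodule.smul_mem _ _ hv

private theorem trM_comap_x (x y : K →ₐ[k] κ) :
    (ptI (AlgHom.id k κ) y).comap (chg K x) = ptI x y := by
  have h : ∀ u : K ⊗[k] K, pt (AlgHom.id k κ) y (chg K x u) = pt x y u := by
    intro u
    induction u using TensorProduct.induction_on with
    | zero => simp
    | add a b ha hb => simp only [map_add, ha, hb]
    | tmul a f => simp
  ext u
  rw [Ideal.mem_comap, mem_ptI, mem_ptI, h]

theorem transitivityM [CharZero k] [Algebra.EssFiniteType k K] (S : GSys k K) {m : ℕ}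
    (hstar : StarM k K K (S.L 1) m) (x y : K →ₐ[k] κ) (hPI : ptI x y ≤ dI k K)
    (htr : Algebra.trdeg K ((K ⊗[k] K) ⧸ ptI x y) = 1) {j : ℕ} {g : K ⊗[k] K}
    (hg : g ∈ S.M K 1) (hg0 : g ≠ 0) (hj : OrdGE (ptI x y) j g)
    (h8 : ∀ f ∈ S.M K 1, OrdGE (dI k K) j f → OrdGE (ptI x y) (m + 1) f) :
    (ptI x y).map (chg K x) ≤ (ptI x y).map (chg K y) := by
  have hP : (ptI x y).IsPrime := inferInstance
  have key : ∀ Q ∈ ((ptI x y).map (chg K y)).minimalPrimes, Q ≤ ptI (AlgHom.id k κ) y →
      Q.comap (chg K x) = ptI x y := by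
    intro Q hQ hQI
    have hQp : Q.IsPrime := hQ.1.1
    have hc : Q.comap (chg K y) = ptI x y := comap_minimal y hP hQ
    have h1 : OrdGE (ptI (AlgHom.id k κ) y) j (chg K x g) := by
      rw [← ordGE_comap, trM_comap_x]
      exact hj
    have h2 := span_ord y (S.L 1) (S.fin 1) (trM_chg x (S.L 1) hg) h1
    have h3 : OrdGE Q (m + 1) (chg K x g) := by
      generalize chg K x g = w at h2
      induction h2 using Submodule.span_induction with
      | mem v hv =>
        obtain ⟨f', ⟨hf1, hf2⟩, rfl⟩ := hv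
        rw [← ordGE_comap, hc]
        exact h8 f' hf1 hf2
      | zero => exact OrdGE_zero (m + 1)
      | add a b _ _ ha hb => exact OrdGE_add ha hb
      | smul c v _ hv =>
        rw [trM_smul]
        exact OrdGE_mul_left _ hv
    rw [← ordGE_comap] at h3
    have hle : Q.comap (chg K x) ≤ ptI x y := by
      rw [← trM_comap_x x y]
      exact Ideal.comap_mono hQI
    by_contra hne
    have hlt : Q.comap (chg K x) < ptI x y := lt_of_le_of_ne hle hne
    have hQ0 : (Q.comap (chg K x)).IsPrime := Ideal.IsPrime.comap _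
    exact hstar g hg hg0 (Q.comap (chg K x)) hQ0 (two_le_trdeg hP hQ0 hlt htr) h3
  rw [Ideal.map_le_iff_le_comap]
  intro p hp
  rw [Ideal.mem_comap]
  obtain ⟨s, hs, n, hn⟩ := exists_mul_pow_mem (ptI (AlgHom.id k κ) y) inferInstance
    ((ptI x y).map (chg K y)) (chg K x p) (by
      intro Q hQ hQI
      have h1 : p ∈ Q.comap (chg K x) := by rw [key Q hQ hQI]; exact hp
      exact h1)
  exact map_isRadical y hP ⟨n, saturated y hP hPI hs hn⟩

end Pool.Agent.H24.TV
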