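/-
MP_e49dc9_ag, THEOREM V, module [H24 TV WM]: the words of coefficient derivations.

wset_mono: wset C g l <= wset C g m for l <= m (induction on m).
wset_fin: finite (induction; Set.Finite.union, Set.finite_iUnion, Set.Finite.image).
wset_M: if g is in S.M K 1 then all words are (M_dX of TU/OrdB).
wset_ord: if OrdGE (dI k K) d g then OrdGE (dI k K) (d - l) q for q in wset C g l. Induction on l:
for q = dX (C.d i) q', OrdGE dI (d - l) q': if d - l = 0 trivial, otherwise d - l = (d - l - 1) + 1
and ordGE_dX (TU/LemS) (dI is prime); OrdGE_mono (TU/OrdB).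
smGE_mul: SmGE J n g -> SmGE J n (a * g) for every ideal J (induction on n for all a, g:
dX theta (a g) = a dX theta g + g dX theta a (Derivation.leibniz); SmGE J (n+1) g gives SmGE J n g
(smGE_mono) and SmGE J n (dX theta g)); smGE_add.
smGE_wset: SmGE (Ideal.span (wset C g m)) (m + 1) g. PROOF. Show for all l <= m and q in
wset C g l: SmGE J (m - l + 1) q, J = span (wset C g m), by induction on m - l: q is in J
(subset, wset_mono); if l = m we need SmGE J 1 q: q in J and the rest trivial. If l < m: for every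
theta, dX theta q is in the ideal ... more precisely dX theta q = sum_i (theta (c_i) (x) 1) * dX (C.d i) q
(this formula is proved inside dX_mem_span in TU/Deg.lean: restate it, dX_eq_sum), each
dX (C.d i) q is in wset C g (l + 1), so SmGE J (m - l) (dX (C.d i) q) by the induction hypothesis,
and smGE_mul, smGE_add.
prime_eqM: as prime_eq of TU/Deg.lean, with StarM: SmGE Q (m + 1) g (SmGE is monotone in the ideal)
gives OrdGE Q (m + 1) g (ordGE_of_smGE), contradiction to StarM with two_le_trdeg (TU/TrD).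
-/
import Pool.Agent.H24.TV.Def
import Pool.Agent.H24.TU.Deg

open scoped TensorProduct

namespace Pool.Agent.H24.TV

open Pool.Agent.H24.TU

universe u

variable {k K : Type u} [Field k] [Field K] [Algebra k K]

theorem wset_mono (C : Coord k K) (g : K ⊗[k] K) {l m : ℕ} (h : l ≤ m) : wset C g l ⊆ wset C g m := by
  induction m, h using Nat.le_induction with
  | base => exact subset_rfl
  | succ m _ ih => exact ih.trans Set.subset_union_left

theorem mem_wset (C : Coord k K) (g : K ⊗[k] K) (m : ℕ) : g ∈ wset C g m :=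
  wset_mono C g (Nat.zero_le m) (Set.mem_singleton g)

theorem wset_fin (C : Coord k K) (g : K ⊗[k] K) (m : ℕ) : (wset C g m).Finite := by
  induction m with
  | zero => exact Set.finite_singleton g
  | succ m ih => exact ih.union (Set.finite_iUnion fun i => ih.image _)

theorem wset_M (C : Coord k K) (S : GSys k K) {g : K ⊗[k] K} (hg : g ∈ S.M K 1) (m : ℕ) :
    ∀ q ∈ wset C g m, q ∈ S.M K 1 := by
  induction m with
  | zero =>
    intro q hq
    rw [Set.mem_singleton_iff.1 hq]
    exact hg
  | succ m ih =>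
    rintro q (hq | hq)
    · exact ih q hq
    · obtain ⟨i, q', hq', rfl⟩ := Set.mem_iUnion.1 hq
      exact M_dX S (ih q' hq') (C.d i)

theorem wset_ord [CharZero k] [Algebra.EssFiniteType k K] (C : Coord k K) {g : K ⊗[k] K} {d : ℕ}
    (hg : OrdGE (dI k K) d g) (l : ℕ) : ∀ q ∈ wset C g l, OrdGE (dI k K) (d - l) q := by
  induction l with
  | zero =>
    intro q hq
    rw [Set.mem_singleton_iff.1 hq]
    exact hg
  | succ l ih =>
    rintro q (hq | hq)
    · exact OrdGE_mono (by omega) (ih q hq)
    · obtain ⟨i, q', hq', rfl⟩ := Set.mem_iUnion.1 hq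
      by_cases hd : d ≤ l
      · have e : d - (l + 1) = 0 := by omega
        rw [e]
        trivial
      · have e : d - l = (d - (l + 1)) + 1 := by omega
        have h1 := ih q' hq'
        rw [e] at h1
        exact ordGE_dX inferInstance _ h1 (C.d i)

theorem dX_eq_sum [CharZero k] (C : Coord k K) (g : K ⊗[k] K) (θ : Derivation k K K) :
    dX K θ g = ∑ i : Fin 3, (θ (C.c i) ⊗ₜ[k] (1 : K)) * dX K (C.d i) g := by
  have hθ : θ = θ (C.c 0) • C.d 0 + θ (C.c 1) • C.d 1 + θ (C.c 2) • C.d 2 := by
    rw [← sub_eq_zero]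
    apply derivation_eq_zero C.basis
    intro j
    rw [Derivation.sub_apply, Derivation.add_apply, Derivation.add_apply, Derivation.smul_apply,
      Derivation.smul_apply, Derivation.smul_apply, C.dual, C.dual, C.dual]
    fin_cases j <;> simp
  have hx : ∀ x : K, θ x = ∑ i : Fin 3, θ (C.c i) * C.d i x := by
    intro x
    rw [Fin.sum_univ_three]
    conv_lhs => rw [hθ]
    rfl
  induction g using TensorProduct.induction_on with
  | zero => simp
  | add a b ha hb =>
    rw [map_add, ha, hb, ← Finset.sum_add_distrib]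
    refine Finset.sum_congr rfl fun i _ => ?_
    rw [map_add, mul_add]
  | tmul x f =>
    rw [dX_tmul, hx x, TensorProduct.sum_tmul]
    refine Finset.sum_congr rfl fun i _ => ?_
    rw [dX_tmul, Algebra.TensorProduct.tmul_mul_tmul, one_mul]

theorem smGE_mono {J J' : Ideal (K ⊗[k] K)} (hJ : J ≤ J') {m n : ℕ} (hmn : m ≤ n) {g : K ⊗[k] K}
    (h : SmGE J n g) : SmGE J' m g := by
  induction m generalizing n g with
  | zero => trivial
  | succ m ih =>
    obtain ⟨n', rfl⟩ : ∃ n', n = n' + 1 := ⟨n - 1, by omega⟩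
    exact ⟨hJ h.1, fun θ => ih (by omega) (h.2 θ)⟩

theorem smGE_add {J : Ideal (K ⊗[k] K)} {n : ℕ} {f g : K ⊗[k] K} (hf : SmGE J n f) (hg : SmGE J n g) :
    SmGE J n (f + g) := by
  induction n generalizing f g with
  | zero => trivial
  | succ n ih =>
    refine ⟨J.add_mem hf.1 hg.1, fun θ => ?_⟩
    rw [map_add]
    exact ih (hf.2 θ) (hg.2 θ)

private theorem smGE_zero {J : Ideal (K ⊗[k] K)} (n : ℕ) : SmGE J n (0 : K ⊗[k] K) := by
  induction n with
  | zero => trivial
  | succ n ih =>
    refine ⟨J.zero_mem, fun θ => ?_⟩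
    rw [map_zero]
    exact ih

theorem smGE_mul {J : Ideal (K ⊗[k] K)} {n : ℕ} {g : K ⊗[k] K} (a : K ⊗[k] K) (h : SmGE J n g) :
    SmGE J n (a * g) := by
  induction n generalizing a g with
  | zero => trivial
  | succ n ih =>
    refine ⟨J.mul_mem_left a h.1, fun θ => ?_⟩
    rw [Derivation.leibniz, smul_eq_mul, smul_eq_mul]
    refine smGE_add (ih a (h.2 θ)) ?_
    rw [mul_comm]
    exact ih _ (smGE_mono le_rfl (Nat.le_succ n) h)

private theorem smGE_sum {J : Ideal (K ⊗[k] K)} {n : ℕ} {ι : Type*} (s : Finset ι)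
    (f : ι → K ⊗[k] K) (h : ∀ i ∈ s, SmGE J n (f i)) : SmGE J n (∑ i ∈ s, f i) := by
  classical
  induction s using Finset.induction_on with
  | empty =>
    rw [Finset.sum_empty]
    exact smGE_zero n
  | insert i s hi ih =>
    rw [Finset.sum_insert hi]
    exact smGE_add (h i (Finset.mem_insert_self i s))
      (ih fun j hj => h j (Finset.mem_insert_of_mem hj))

private theorem smGE_word [CharZero k] (C : Coord k K) (g : K ⊗[k] K) (m : ℕ) (r : ℕ) :
    ∀ l, l + r = m → ∀ q ∈ wset C g l, SmGE (Ideal.span (wset C g m)) (r + 1) q := by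
  induction r with
  | zero =>
    intro l hl q hq
    have e : l = m := by omega
    subst e
    exact ⟨Ideal.subset_span hq, fun θ => trivial⟩
  | succ r ih =>
    intro l hl q hq
    refine ⟨Ideal.subset_span (wset_mono C g (by omega) hq), fun θ => ?_⟩
    rw [dX_eq_sum C q θ]
    refine smGE_sum _ _ fun i _ => smGE_mul _ ?_
    refine ih (l + 1) (by omega) _ ?_
    exact Set.mem_union_right _ (Set.mem_iUnion.2 ⟨i, Set.mem_image_of_mem _ hq⟩)

theorem smGE_wset [CharZero k] (C : Coord k K) (g : K ⊗[k] K) (m : ℕ) :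
    SmGE (Ideal.span (wset C g m)) (m + 1) g :=
  smGE_word C g m m 0 (by omega) g (mem_wset C g 0)

theorem prime_eqM [CharZero k] [Algebra.EssFiniteType k K] (S : GSys k K) {m : ℕ}
    (hstar : StarM k K K (S.L 1) m) {P : Ideal (K ⊗[k] K)} (hP : P.IsPrime)
    (htr : Algebra.trdeg K ((K ⊗[k] K) ⧸ P) = 1) {g : K ⊗[k] K} (hg : g ∈ S.M K 1) (hg0 : g ≠ 0)
    {J : Ideal (K ⊗[k] K)} (hJ : SmGE J (m + 1) g) (Q : Ideal (K ⊗[k] K)) (hQ : Q.IsPrime) (hJQ : J ≤ Q)
    (hQP : Q ≤ P) : Q = P := by
  by_contra hne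
  have hlt : Q < P := lt_of_le_of_ne hQP hne
  have h2 := two_le_trdeg hP hQ hlt htr
  have h3 : SmGE Q (m + 1) g := smGE_mono hJQ le_rfl hJ
  exact hstar g hg hg0 Q hQ h2 (ordGE_of_smGE hQ (m + 1) h3)

end Pool.Agent.H24.TV
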