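/-
MP_e49dc9_ag, THEOREM V, module [H24 TV MainM]: THEOREM I with (*m).

The proof is the proof of theoremI in TU/Main.lean with the following changes:
* d >= 2 e + 2 m (from hch : h_1 <= (d + 3).choose 3 and h2);
* hgP : OrdGE P (d + 1 - e) g gives OrdGE P (m + 1) g; if 2 <= trdeg (R/P) this contradicts StarM;
* transitivityM with h8: OrdGE (dI) (d + 1 - e) f gives OrdGE P (d + 1 - e + 1 - e) f
  (ord_compare), and d + 2 - 2 e >= m + 1;
* W := wset C g m (finite: wset_fin; in M_1: wset_M); for q in W: OrdGE (dI) (d - m) q (wset_ord),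
  ord_compare: OrdGE P (d - m + 1 - e) q; j' := d + 1 - e - m (>= 1);
* hWmin by prime_eqM and smGE_wset (J = span W);
* numerics: j' instead of d - e: d + 2 <= 2 j' because d >= 2 e + 2 m, so w <= 2 e j'^2 as before;
  arith_bound is public.
-/
import Pool.Agent.H24.TV.WM
import Pool.Agent.H24.TV.TrM
import Pool.Agent.H24.TU.Main

open scoped TensorProduct

namespace Pool.Agent.H24.TV

open Pool.Agent.H24.TU

universe u

theorem theoremI_M {k K : Type u} [Field k] [CharZero k] [IsAlgClosed k] [Field K] [Algebra k K]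
    [Algebra.EssFiniteType k K] (htr : Algebra.trdeg k K = 3) (S : GSys k K) {m : ℕ}
    (hstar : StarM k K K (S.L 1) m) {e : ℕ} (he : 1 ≤ e) (w : ℝ)
    (hw : ∀ᶠ n : ℕ in Filter.atTop, (Module.finrank k (S.L n) : ℝ) ≤ w * (n : ℝ) ^ 3)
    (h1 : (1 + 3 / (e : ℝ)) ^ 3 * w < (Module.finrank k (S.L 1) : ℝ))
    (h2 : (2 * e + 2 * m + 3).choose 3 ≤ Module.finrank k (S.L 1)) :
    ∃ F : IntermediateField k K, Algebra.trdeg F K = 1 ∧
      ∃ C : ℝ, ∀ n : ℕ,
        (Module.finrank F (Submodule.span F (S.L n : Set K)) : ℝ) ≤ 28 * (e : ℝ) * n + C := by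
  obtain ⟨C₀⟩ := exists_coord (k := k) (K := K) htr
  -- the prime P
  have hP : ∃ P : Ideal (K ⊗[k] K), P.IsPrime ∧ VIdeal S e ≤ P ∧ P ≤ dI k K ∧ P ≠ dI k K := by
    by_contra hcon
    push Not at hcon
    obtain ⟨c, hc⟩ := all_exponents C₀ S he (fun Q hQ h3 h4 => hcon Q hQ h3 h4)
    exact absurd h1 (not_lt.2 (vol_bound C₀ S he hc w hw))
  obtain ⟨P, hP, hVP, hPI, hPne⟩ := hP
  obtain ⟨d, g, hg, hg0, hgd, hmax, hch⟩ := max_order C₀ S
  have hd : 2 * e + 2 * m ≤ d := by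
    by_contra hcon
    have h3 : (d + 3).choose 3 < (2 * e + 2 * m + 3).choose 3 := by
      have h4 : (d + 3).choose 3 ≤ (2 * e + 2 * m + 2).choose 3 :=
        Nat.choose_le_choose 3 (by omega)
      have h5 : (2 * e + 2 * m + 3).choose 3 =
          (2 * e + 2 * m + 2).choose 2 + (2 * e + 2 * m + 2).choose 3 :=
        Nat.choose_succ_succ _ _
      have h6 : 0 < (2 * e + 2 * m + 2).choose 2 := Nat.choose_pos (by omega)
      omega
    omega
  have hgP : OrdGE P (d + 1 - e) g := ord_compare S hP hVP hg hgd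
  have hgP2 : OrdGE P (m + 1) g := OrdGE_mono (by omega) hgP
  -- transcendence degree
  have htrP : Algebra.trdeg K ((K ⊗[k] K) ⧸ P) = 1 := by
    have h3 : ¬ 2 ≤ Algebra.trdeg K ((K ⊗[k] K) ⧸ P) := by
      intro h4
      exact hstar g hg hg0 P hP h4 hgP2
    have h4 : Algebra.trdeg K ((K ⊗[k] K) ⧸ dI k K) < Algebra.trdeg K ((K ⊗[k] K) ⧸ P) :=
      trdeg_quot_lt hP inferInstance (lt_of_le_of_ne hPI hPne) (trdeg_quot_fin hP)
    rw [trdeg_dI] at h4
    have h5 : 1 ≤ Algebra.trdeg K ((K ⊗[k] K) ⧸ P) := Cardinal.one_le_iff_pos.2 h4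
    have h6 : Algebra.trdeg K ((K ⊗[k] K) ⧸ P) < 2 := not_le.1 h3
    have h7 : Algebra.trdeg K ((K ⊗[k] K) ⧸ P) ≤ 1 := by
      obtain ⟨n, hn⟩ := Cardinal.lt_aleph0.1 (h6.trans (by exact_mod_cast Cardinal.natCast_lt_aleph0 (n := 2)))
      rw [hn] at h6 ⊢
      have h8 : n < 2 := by exact_mod_cast h6
      have h9 : n ≤ 1 := by omega
      exact_mod_cast h9
    exact le_antisymm h7 h5
  -- the two maps
  let x : K →ₐ[k] P.ResidueField :=
    (IsScalarTower.toAlgHom k (K ⊗[k] K) P.ResidueField).comp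
      (Algebra.TensorProduct.includeLeft : K →ₐ[k] K ⊗[k] K)
  let y : K →ₐ[k] P.ResidueField :=
    (IsScalarTower.toAlgHom k (K ⊗[k] K) P.ResidueField).comp
      (Algebra.TensorProduct.includeRight : K →ₐ[k] K ⊗[k] K)
  have hxy : ∀ q : K ⊗[k] K, pt x y q = algebraMap (K ⊗[k] K) P.ResidueField q := by
    intro q
    induction q using TensorProduct.induction_on with
    | zero => simp
    | add a b ha hb => rw [map_add, map_add, ha, hb]
    | tmul a b =>
      rw [pt_tmul]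
      show algebraMap (K ⊗[k] K) P.ResidueField (a ⊗ₜ[k] 1) *
        algebraMap (K ⊗[k] K) P.ResidueField (1 ⊗ₜ[k] b) = _
      rw [← map_mul, Algebra.TensorProduct.tmul_mul_tmul, mul_one, one_mul]
  have hPxy : ptI x y = P := by
    ext q
    rw [mem_ptI, hxy, Ideal.algebraMap_residueField_eq_zero]
  have hle : (ptI x y).map (chg K x) ≤ (ptI x y).map (chg K y) := by
    refine transitivityM S hstar x y (by rw [hPxy]; exact hPI) (by rw [hPxy]; exact htrP)
      (j := d + 1 - e) hg hg0 (by rw [hPxy]; exact hgP) ?_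
    intro f hf hf'
    rw [hPxy]
    exact OrdGE_mono (by omega) (ord_compare S hP hVP hf hf')
  have hPI' : ptI x y ≤ dI k K := by rw [hPxy]; exact hPI
  have htrF : Algebra.trdeg (eqF x y) K = 1 := trdeg_eqF x y hle hPI' (by rw [hPxy]; exact htrP)
  refine ⟨eqF x y, htrF, ?_⟩
  obtain ⟨C, hC0, hC1⟩ := exists_coord_adapted htr (eqF x y) htrF
  have hst : ∀ p ∈ P, dK K (C.d 2) p ∈ P := by
    have := stable_d2 x y hle hPI' C (d2_eq_zero C (eqF x y) htrF hC0 hC1)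
    rw [hPxy] at this
    exact this
  have hh1 : Module.finrank k (S.L 1) ≤ e * (d + 2).choose 2 := h1_le C S hPI hst hVP hmax
  -- the set W
  let W : Set (K ⊗[k] K) := wset C g m
  have hWfin : W.Finite := wset_fin C g m
  have hWM : ∀ q ∈ W, q ∈ S.M K 1 := wset_M C S hg m
  have hWj : ∀ q ∈ W, OrdGE P (d + 1 - e - m) q := by
    intro q hq
    exact OrdGE_mono (by omega) (ord_compare S hP hVP (hWM q hq) (wset_ord C hgd m q hq))
  have hWP : Ideal.span W ≤ P := by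
    rw [Ideal.span_le]
    intro q hq
    have h3 : OrdGE P 1 q := OrdGE_mono (by omega) (hWj q hq)
    exact h3.1
  have hWmin : ∀ Q : Ideal (K ⊗[k] K), Q.IsPrime → Ideal.span W ≤ Q → Q ≤ P → Q = P := by
    intro Q hQ h3 h4
    exact prime_eqM S hstar hP htrP hg hg0 (J := Ideal.span W) (smGE_wset C g m) Q hQ h3 h4
  have hp0 : (1 : K) ⊗ₜ[k] C.c 0 - C.c 0 ⊗ₜ[k] (1 : K) ∈ P := by
    have := mem_ptI_eqF x y hC0
    rwa [hPxy] at this
  have hp1 : (1 : K) ⊗ₜ[k] C.c 1 - C.c 1 ⊗ₜ[k] (1 : K) ∈ P := by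
    have := mem_ptI_eqF x y hC1
    rwa [hPxy] at this
  have := hP
  obtain ⟨c, hc⟩ := degree_bound S C P hp0 hp1 W hWfin hWM hWj hWP hWmin
  -- numerics
  have hw0 : 0 ≤ w := by
    by_contra hneg
    push Not at hneg
    obtain ⟨n, hn, hn1⟩ := (hw.and (Filter.eventually_ge_atTop 1)).exists
    have hn' : (1 : ℝ) ≤ n := by exact_mod_cast hn1
    have h3 : w * (n : ℝ) ^ 3 < 0 := mul_neg_of_neg_of_pos hneg (by positivity)
    have h4 : (0 : ℝ) ≤ (Module.finrank k (S.L n) : ℝ) := Nat.cast_nonneg _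
    linarith
  have he' : (1 : ℝ) ≤ e := by exact_mod_cast he
  have hwh : w ≤ (Module.finrank k (S.L 1) : ℝ) := by
    have h3 : (1 : ℝ) ≤ (1 + 3 / (e : ℝ)) ^ 3 := by
      apply one_le_pow₀
      have : (0 : ℝ) ≤ 3 / (e : ℝ) := by positivity
      linarith
    nlinarith
  have hwj : w ≤ 2 * (e : ℝ) * ((d + 1 - e - m : ℕ) : ℝ) ^ 2 := by
    have h3 : ((d + 2).choose 2 : ℝ) = (d + 2) * (d + 1) / 2 := by
      rw [Nat.choose_two_right]
      have hdv : 2 ∣ (d + 2) * (d + 2 - 1) := (Nat.even_mul_pred_self (d + 2)).two_dvd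
      rw [Nat.cast_div hdv (by norm_num), show d + 2 - 1 = d + 1 by omega]
      push_cast
      ring
    have h4 : (Module.finrank k (S.L 1) : ℝ) ≤ e * ((d + 2) * (d + 1) / 2) := by
      rw [← h3]
      exact_mod_cast hh1
    have h5 : ((d + 1 - e - m : ℕ) : ℝ) = (d : ℝ) + 1 - e - m := by
      rw [Nat.cast_sub (by omega), Nat.cast_sub (by omega)]
      push_cast
      ring
    have h6 : (d : ℝ) + 2 ≤ 2 * ((d + 1 - e - m : ℕ) : ℝ) := by
      rw [h5]
      have : (2 * (e : ℝ) + 2 * m) ≤ d := by exact_mod_cast hd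
      linarith
    have hd0 : (0 : ℝ) ≤ d := Nat.cast_nonneg _
    have h7 : ((d : ℝ) + 2) * (d + 1) / 2 ≤ 2 * ((d + 1 - e - m : ℕ) : ℝ) ^ 2 := by
      nlinarith
    calc w ≤ (Module.finrank k (S.L 1) : ℝ) := hwh
      _ ≤ e * ((d + 2) * (d + 1) / 2) := h4
      _ ≤ e * (2 * ((d + 1 - e - m : ℕ) : ℝ) ^ 2) :=
          mul_le_mul_of_nonneg_left h7 (by positivity)
      _ = 2 * (e : ℝ) * ((d + 1 - e - m : ℕ) : ℝ) ^ 2 := by ring
  obtain ⟨Cc, hCc⟩ := arith_bound (fun n => dN S P n) (fun n => Module.finrank k (S.L n)) c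
    (d + 1 - e - m) e (by omega) w hw0 hc hw hwj
  refine ⟨Cc, fun n => le_trans ?_ (hCc n)⟩
  have h3 := finrank_span_le S x y hle hPI' n
  rw [hPxy] at h3
  exact_mod_cast h3

/-- THEOREM I with a linear bound in the natural numbers. -/
theorem theoremI_M_nat {k K : Type u} [Field k] [CharZero k] [IsAlgClosed k] [Field K]
    [Algebra k K] [Algebra.EssFiniteType k K] (htr : Algebra.trdeg k K = 3) (S : GSys k K) {m : ℕ}
    (hstar : StarM k K K (S.L 1) m) {e : ℕ} (he : 1 ≤ e) (w : ℝ)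
    (hw : ∀ᶠ n : ℕ in Filter.atTop, (Module.finrank k (S.L n) : ℝ) ≤ w * (n : ℝ) ^ 3)
    (h1 : (1 + 3 / (e : ℝ)) ^ 3 * w < (Module.finrank k (S.L 1) : ℝ))
    (h2 : (2 * e + 2 * m + 3).choose 3 ≤ Module.finrank k (S.L 1)) :
    ∃ F : IntermediateField k K, Algebra.trdeg F K = 1 ∧
      ∃ n₀ : ℕ, ∀ n : ℕ, n₀ ≤ n →
        Module.finrank F (Submodule.span F (S.L n : Set K)) ≤ (28 * e + 1) * n := by
  obtain ⟨F, hF, C, hC⟩ := theoremI_M htr S hstar he w hw h1 h2
  obtain ⟨n₀, hn₀⟩ := exists_nat_ge C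
  refine ⟨F, hF, n₀, fun n hn => ?_⟩
  have h3 := hC n
  have h4 : (n₀ : ℝ) ≤ n := by exact_mod_cast hn
  have h5 : (Module.finrank F (Submodule.span F (S.L n : Set K)) : ℝ) ≤
      (28 * (e : ℝ) + 1) * n := by nlinarith
  exact_mod_cast h5

end Pool.Agent.H24.TV
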