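import Pool.Agent.H24.TV.StA
import Pool.Agent.H24.TV.DvM
import Pool.Agent.H20.TU.ST1

/-!
# [H24 TV StM] THEOREM V (MP_e49dc9_ag): (*m) from the orders along almost all prime divisors

* `chartT`: the chart of `H20/TU/CHT.lean` (`chart`) can be chosen such that it avoids finitely many points `x` with a nonzero
  nonunit in `O x`.  Proof: `U₀` from `chart`; induction on the finite set, or at once: for every `x ∈ T ∩ U₀` there is
  `a x ∈ sec U₀`, `a x ≠ 0`, not a unit at `x` (`IsVar.frac` applied to the nonunit: `b * s` with `s` a unit at `x`); `a` := the product;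
  `U := {y | y ∈ U₀ ∧ Un (O y) a}` is affine (`IsVar.basic`), contains the generic point (`gen_mem` idea: `O g = ⊤`, `a ≠ 0`), and no
  point of `T`.  `sec U` is stable under the derivations: for `b ∈ sec U` there is `N` with `a ^ N * b ∈ sec U₀` (`den` of
  `H54/RV/B2.lean`), `d b = (d (a ^ N * b) - b * d (a ^ N)) / a ^ N` and `a` is a unit at the points of `U`.  This is how `chart` itself is
  proved: see there.
* `star_m`: as `star_one` in `H20/TU/ST1.lean`, with `chartT` (for the set `{x ∈ T | some PDiv P has P.η = x}`: the valuation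
  ring of `P` is discrete, so it has a nonzero nonunit), `star_algM`, `dvqM` (for the words), `exists_pdiv` (public).
-/

set_option autoImplicit false

namespace Pool.Agent.H24.TV

open Pool.Agent.H54.RV Pool.Agent.H83.TU Pool.Agent.H24.TU Pool.Agent.H20.TU

variable {k K : Type} [Field k] [Field K] [Algebra k K] {X : Mod k K}

theorem chartT (hX : IsVar X) (hg : ∃ g, Gen X g) (C : Coord k K) (D : Cart X) (T : Set X.P) (hT : T.Finite)
    (hT' : ∀ x ∈ T, ∃ a ∈ X.O x, a ≠ 0 ∧ ¬ Un (X.O x) a) :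
    ∃ U : Set X.P, X.aff U ∧ U.Nonempty ∧ (∀ x ∈ T, x ∉ U) ∧ (∀ i, C.c i ∈ X.sec U) ∧
      (∀ i, ∀ b ∈ X.sec U, C.d i b ∈ X.sec U) ∧ ∃ h : K, h ≠ 0 ∧ ∀ y ∈ U, Un (X.O y) (D.eq y / h) := by
  classical
  obtain ⟨U0, hU0, hne, hcU, hdU, h, h0, hDh⟩ := chart hX hg C D
  obtain ⟨g, hgg⟩ := hg
  have hgU0 := gen_mem hgg U0 (hX.op U0 hU0) hne
  -- one function for every point
  have hfun : ∀ x : X.P, ∃ a ∈ X.sec U0, a ≠ 0 ∧ (x ∈ T → x ∈ U0 → ¬ Un (X.O x) a) := by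
    intro x
    by_cases hx : x ∈ T ∧ x ∈ U0
    · obtain ⟨a, ha, ha0, hau⟩ := hT' x hx.1
      obtain ⟨s, hs, hsu, has⟩ := hX.frac U0 x hU0 hx.2 a ha
      refine ⟨a * s, has, mul_ne_zero ha0 hsu.1, fun _ _ hu => hau ?_⟩
      have h1 : a = a * s * s⁻¹ := by rw [mul_assoc, mul_inv_cancel₀ hsu.1, mul_one]
      rw [h1]
      exact Un.mul hu (Un.inv hsu)
    · exact ⟨1, one_mem _, one_ne_zero, fun h1 h2 => absurd ⟨h1, h2⟩ hx⟩
  choose a haU ha0 hau using hfun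
  let s : K := ∏ x ∈ hT.toFinset, a x
  have hs : s ∈ X.sec U0 := Subalgebra.prod_mem _ fun x _ => haU x
  have hs0 : s ≠ 0 := Finset.prod_ne_zero_iff.2 fun x _ => ha0 x
  have hsnu : ∀ x ∈ T, x ∈ U0 → ¬ Un (X.O x) s := by
    intro x hxT hxU hu
    apply hau x hxT hxU
    have hle : X.sec U0 ≤ X.O x := fun b hb => (mem_sec U0 b).1 hb x hxU
    have hmem : x ∈ hT.toFinset := hT.mem_toFinset.2 hxT
    have h1 : s = a x * ∏ y ∈ hT.toFinset.erase x, a y := (Finset.mul_prod_erase _ _ hmem).symm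
    have h2 : (∏ y ∈ hT.toFinset.erase x, a y) ∈ X.O x := hle (Subalgebra.prod_mem _ fun y _ => haU y)
    refine ⟨ha0 x, hle (haU x), ?_⟩
    have h3 : (∏ y ∈ hT.toFinset.erase x, a y) ≠ 0 := Finset.prod_ne_zero_iff.2 fun y _ => ha0 y
    have h4 : (a x)⁻¹ = s⁻¹ * ∏ y ∈ hT.toFinset.erase x, a y := by
      rw [h1, mul_inv, mul_assoc, inv_mul_cancel₀ h3, mul_one]
    rw [h4]
    exact (X.O x).mul_mem hu.2.2 h2
  have hsy : ∀ y ∈ U0, s ∈ X.O y := (mem_sec U0 s).1 hs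
  have hU3 := hX.basic U0 s hU0 hsy
  obtain ⟨U3, hU3e⟩ : ∃ U3, U3 = {x | x ∈ U0 ∧ Un (X.O x) s} := ⟨_, rfl⟩
  rw [← hU3e] at hU3
  have hgU3 : g ∈ U3 := by
    rw [hU3e]
    refine ⟨hgU0, hs0, ?_, ?_⟩
    · rw [hgg.top]; exact Algebra.mem_top
    · rw [hgg.top]; exact Algebra.mem_top
  have hle : X.sec U0 ≤ X.sec U3 := by
    intro z hz
    rw [mem_sec] at hz ⊢
    intro y hy
    rw [hU3e] at hy
    exact hz y hy.1
  have hsi : s⁻¹ ∈ X.sec U3 := by
    rw [mem_sec]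
    intro y hy
    rw [hU3e] at hy
    exact hy.2.2.2
  refine ⟨U3, hU3, ⟨g, hgU3⟩, ?_, fun i => hle (hcU i), ?_, h, h0, ?_⟩
  · intro x hxT hxU
    rw [hU3e] at hxU
    exact hsnu x hxT hxU.1 hxU.2
  · intro i b hb
    obtain ⟨N, hN⟩ := den hX U0 hU0 s b hsy (by
      intro y hy hu
      refine (mem_sec U3 b).1 hb y ?_
      rw [hU3e]
      exact ⟨hy, hu⟩)
    have h1 : s ^ N * b ∈ X.sec U0 := by
      rw [mem_sec]
      exact hN N le_rfl
    have h2 : C.d i (s ^ N * b) ∈ X.sec U3 := hle (hdU i _ h1)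
    have h4 : C.d i (s ^ N) ∈ X.sec U3 := hle (hdU i _ (pow_mem hs N))
    rw [Derivation.leibniz, smul_eq_mul, smul_eq_mul] at h2
    have h5 : C.d i b = (s⁻¹) ^ N * ((s ^ N * C.d i b + b * C.d i (s ^ N)) - b * C.d i (s ^ N)) := by
      rw [add_sub_cancel_right, ← mul_assoc, ← mul_pow, inv_mul_cancel₀ hs0, one_pow, one_mul]
    rw [h5]
    exact mul_mem (pow_mem hsi N) (sub_mem h2 (mul_mem hb h4))
  · intro y hy
    rw [hU3e] at hy
    exact hDh y hy.1

private theorem stm_pow (p : Place k K) (a : K) (ha : a ≠ 0) (n : ℕ) : p.ord (a ^ n) = n * p.ord a := by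
  induction n with
  | zero => simp [ord_one]
  | succ n ih =>
    rw [pow_succ, ord_mul p _ _ (pow_ne_zero n ha) ha, ih]
    push_cast
    ring

/-- (*m) for the sections of `D` -/
theorem star_m [IsAlgClosed k] [CharZero k] (hX : IsVar X) (hg : ∃ g, Gen X g)
    (hufd : ∀ x, UniqueFactorizationMonoid (X.O x)) (htr : Algebra.trdeg k K = 3) (C : Coord k K) (D : Cart X)
    (m : ℕ) (hS : StarT D m) (Y : Type) [Field Y] [Algebra k Y] : StarM k Y K (secL D 1) m := by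
  classical
  obtain ⟨T, hT, hST⟩ := hS
  have hT1 : {x | x ∈ T ∧ ∃ P : PDiv X, P.η = x}.Finite := hT.subset fun x hx => hx.1
  obtain ⟨U, hU, hne, hTU, hcU, hdU, h, h0, hDh⟩ := chartT hX hg C D {x | x ∈ T ∧ ∃ P : PDiv X, P.η = x} hT1 (by
    rintro x ⟨-, P, hP⟩
    obtain ⟨t, ht0, ht⟩ := ord_unif P.p
    have hmem : ∀ a, a ∈ X.O x ↔ a ∈ P.p.R := by
      intro a
      rw [← hP]
      exact P.mem a
    refine ⟨t, ?_, ht0, ?_⟩
    · rw [hmem, ← ord_nonneg P.p t ht0, ht]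
      exact zero_le_one
    · intro hu
      have h1 := hu.2.2
      rw [hmem, ← ord_nonneg P.p _ (inv_ne_zero ht0), ord_inv, ht] at h1
      omega)
  have hL : ∀ s ∈ secL D 1, s * h ∈ X.sec U := by
    intro s hs
    rw [mem_sec]
    intro y hy
    have h1 := hs y
    rw [pow_one] at h1
    have h2 := hDh y hy
    have h3 : s * h = s * D.eq y * (D.eq y / h)⁻¹ := by
      have := D.ne y
      field_simp
    rw [h3]
    exact (X.O y).mul_mem h1 h2.2.2
  refine star_algM (secL D 1) (X.sec U) (hX.fg U hU hne) (sec_frac hX hg U hU hne) C.d hdU h hL m ?_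
  · intro q hq ht s hs hs0 hdq
    obtain ⟨t, ht⟩ := ht
    obtain ⟨x, hxU, hx⟩ := hX.prime U hU hne q hq
    have hle : X.sec U ≤ X.O x := fun a ha => (mem_sec U a).1 ha x hxU
    have hufdx := hufd x
    obtain ⟨hdvr, π, hπ, hπu, hπ0, hgπ⟩ := dvqM (le_of_eq htr) (X.sec U) (X.O x) hle
      (hX.frac U x hU hxU) q hx t ht C.c hcU C.d C.dual hdU m (s * h) (mul_ne_zero hs0 h0) (hL s hs)
      hdq
    obtain ⟨P, hP⟩ := exists_pdiv x (fun a => by
      obtain ⟨b, hb, hb0, hab⟩ := sec_frac hX hg U hU hne a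
      exact ⟨b, hle hb, hb0, hle hab⟩) hdvr
    have hPT : P.η ∉ T := by
      intro hPT
      rw [hP] at hPT
      exact hTU x ⟨hPT, P, hP⟩ hxU
    have h1 := hST P hPT s hs0 hs
    have hmem : ∀ a, a ∈ X.O x ↔ a ∈ P.p.R := by
      intro a
      rw [← hP]
      exact P.mem a
    rw [hP] at h1
    have h2 := hDh x hxU
    have h3 : P.p.ord (D.eq x / h) = 0 :=
      (ord_eq_zero P.p _ h2.1).2 ⟨(hmem _).1 h2.2.1, (hmem _).1 h2.2.2⟩
    have h4 : P.p.ord (s * D.eq x) = P.p.ord (s * h) := by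
      have h5 : s * D.eq x = s * h * (D.eq x / h) := by field_simp
      rw [h5, ord_mul _ _ _ (mul_ne_zero hs0 h0) h2.1, h3, add_zero]
    have h5 : 1 ≤ P.p.ord π := by
      have h6 : 0 ≤ P.p.ord π := (ord_nonneg P.p π hπ0).2 ((hmem _).1 hπ)
      have h7 : P.p.ord π ≠ 0 := by
        intro h8
        have h9 := (ord_eq_zero P.p π hπ0).1 h8
        exact hπu ⟨hπ0, hπ, (hmem _).2 h9.2⟩
      omega
    have hpm : π ^ (m + 1) ≠ 0 := pow_ne_zero _ hπ0
    have h6 : 0 ≤ P.p.ord (s * h / π ^ (m + 1)) :=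
      (ord_nonneg P.p _ (div_ne_zero (mul_ne_zero hs0 h0) hpm)).2 ((hmem _).1 hgπ)
    have h7 : P.p.ord (s * h) = P.p.ord (s * h / π ^ (m + 1)) + ((m + 1 : ℕ) : ℤ) * P.p.ord π := by
      rw [← stm_pow P.p π hπ0, ← ord_mul _ _ _ (div_ne_zero (mul_ne_zero hs0 h0) hpm) hpm]
      congr 1
      field_simp
    have h8 : ((m + 1 : ℕ) : ℤ) ≤ ((m + 1 : ℕ) : ℤ) * P.p.ord π :=
      le_mul_of_one_le_right (Int.natCast_nonneg _) h5
    push_cast at h7 h8
    omega

end Pool.Agent.H24.TV
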