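import Pool.Agent.H24.TV.ThM
import Pool.Agent.H24.TV.MainM
import Pool.Agent.H24.TV.StM
import Pool.Agent.H39.TU.Mai

/-!
# [H24 TV MaM] THEOREM V (MP_e49dc9_ag): Theorems I and II together, with (*m)

As `H39/TU/Mai.lean` (`mai`): the same `e` (`exists_e`), `γ = 28 * e + 1`, the threshold is the maximum of
`(2 * e + 2 * m + 3).choose 3` and `(28 * e + 1 + m + 3).choose 3`; `star_m`, `theoremI_M_nat`, `theoremII_M`.
-/

set_option autoImplicit false

namespace Pool.Agent.H24.TV

open Pool.Agent.H54.RV Pool.Agent.H83.TU Pool.Agent.H24.TU Pool.Agent.H20.TU Pool.Agent.H39.TU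

variable {k K : Type} [Field k] [Field K] [Algebra k K] {X : Mod k K}

theorem maiM [IsAlgClosed k] [CharZero k] (h : Hyp X) (hGF : GF X) (hUN : UN X) (hUF : UF X)
    (hsm : ∀ x, SmP X x) : MaiM h.var h.gen := by
  intro th hth m
  obtain ⟨e, he1, he⟩ := exists_e th hth
  refine ⟨max ((2 * e + 2 * m + 3).choose 3) ((28 * e + 1 + m + 3).choose 3), 28 * e + 1,
    fun D hD hS hN hv => ?_⟩
  have hN1 : (2 * e + 2 * m + 3).choose 3 < h0 D 1 := (le_max_left _ _).trans_lt hN
  have hN2 : (28 * e + 1 + m + 3).choose 3 < h0 D 1 := (le_max_right _ _).trans_lt hN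
  have hess : Algebra.EssFiniteType k K := by
    have h1 := K_fg h.var h.gen
    have h2 := IntermediateField.essFiniteType_iff.2 h1
    exact Algebra.EssFiniteType.of_surjective
      (IntermediateField.topEquiv (F := k) (E := K)).toAlgHom
      (IntermediateField.topEquiv (F := k) (E := K)).surjective
  obtain ⟨C₀⟩ := exists_coord (k := k) (K := K) h.tr
  have hst : ∀ (Y : Type) [Field Y] [Algebra k Y], StarM k Y K (secL D 1) m := fun Y _ _ =>
    star_m h.var h.gen h.ufd h.tr C₀ D m hS Y
  let S : GSys k K :=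
    { L := secL D
      one_mem := fun y => by
        rw [pow_zero, mul_one]
        exact (X.O y).one_mem
      mul_mem := by
        intro m n f g hf hg y
        have h1 := (X.O y).mul_mem (hf y) (hg y)
        have h2 : f * g * D.eq y ^ (m + n) = f * D.eq y ^ m * (g * D.eq y ^ n) := by
          rw [pow_add]
          ring
        rw [h2]
        exact h1
      fin := hGF.1 D
      ne_bot := by
        intro h1
        have h2 : h0 D 1 = 0 := by
          unfold h0
          rw [h1]
          exact finrank_bot k K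
        omega
      frac := frac_sec h hUF D hD }
  -- a number between the volume and the number of sections
  have hq : (0 : ℝ) < (1 + 3 / (e : ℝ)) ^ 3 := by positivity
  have hvol := Pool.Agent.H41.TU.vol_nonneg hGF D
  have hlt : vol D < h0 D 1 / (1 + 3 / (e : ℝ)) ^ 3 := by
    rw [lt_div_iff₀ hq]
    calc vol D * (1 + 3 / (e : ℝ)) ^ 3 ≤ vol D * (1 + th) := mul_le_mul_of_nonneg_left he.le hvol
      _ = (1 + th) * vol D := mul_comm _ _
      _ < _ := hv
  obtain ⟨w, hw1, hw2⟩ := exists_between hlt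
  obtain ⟨F, hF, n₀, hγ⟩ := theoremI_M_nat h.tr S (hst K) he1 w (vol_ev hGF D w hw1) (by
    rw [lt_div_iff₀ hq, mul_comm] at hw2
    exact hw2) hN1.le
  obtain ⟨hR, M, hM, hM', hRM⟩ := theoremII_M h hGF hUN hUF hsm D hD m hst F hF (28 * e + 1) n₀ hγ hN2
  exact ⟨F, hF, by exact_mod_cast hR, M, hM, hM', hRM⟩

end Pool.Agent.H24.TV
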