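import Pool.Agent.H24.TV.GDef
import Pool.Agent.H20.TU.ST0
import Pool.Agent.H24.TU.OrdB

/-!
# [H24 TV StA] THEOREM V (MP_e49dc9_ag): the algebraic part of (*m)

As `H20/TU/ST0.lean` (`star_alg`), with `m` derivations.  The proof is the same: `spn` is for an arbitrary family of
relations; take as index type `ι` the lists `l : List (Fin 3)` with `l.length ≤ m` (a subtype) and
`w l j := ⟨wrd d l (v j * h), _⟩`.  The relation `∑ j, a j • β (w l j) = 0`:
`∑ j, a j ⊗ₜ wrd d l (v j * h) = ` the word `l` in the `dK X (d i)` applied to `G * (1 ⊗ₜ h)` (induction on `l`), which is in `Q`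
because `OrdGE Q (m + 1) (G * (1 ⊗ₜ h))` (`OrdGE_mul_left` of `H24/TU/OrdB.lean`, with the factors exchanged by `mul_comm`) and
`OrdGE Q (m + 1) f` implies that all words of length at most `m` send `f` into `Q` (induction on the length).
At the end `∑ j, l j • wrd d w (v j * h) = wrd d w ((∑ j, l j • v j) * h)` (words are `k`-linear, induction on `w`).
-/

set_option autoImplicit false

open MvPolynomial Pool.Agent.H24.TU
open scoped TensorProduct

namespace Pool.Agent.H24.TV

open Pool.Agent.H20.TU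

/-- words in the function derivations -/
private noncomputable def sW {k K : Type} [Field k] [Field K] [Algebra k K] (X : Type) [Field X] [Algebra k X]
    (d : Fin 3 → Derivation k K K) (l : List (Fin 3)) (f : X ⊗[k] K) : X ⊗[k] K :=
  l.foldl (fun f i => dK X (d i) f) f

private theorem sW_mem {k X K : Type} [Field k] [Field X] [Field K] [Algebra k X] [Algebra k K]
    (d : Fin 3 → Derivation k K K) (Q : Ideal (X ⊗[k] K)) (m : ℕ) (f : X ⊗[k] K)
    (hf : OrdGE Q (m + 1) f) (l : List (Fin 3)) (hl : l.length ≤ m) : sW X d l f ∈ Q := by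
  induction m generalizing f l with
  | zero =>
    have h1 : l = [] := List.length_eq_zero_iff.1 (Nat.le_zero.1 hl)
    subst h1
    exact hf.1
  | succ m ih =>
    cases l with
    | nil => exact hf.1
    | cons i l =>
      have h1 : l.length ≤ m := by simpa using hl
      exact ih (dK X (d i) f) (hf.2 (d i)) l h1

private theorem sW_sum {k X K : Type} [Field k] [Field X] [Field K] [Algebra k X] [Algebra k K]
    (d : Fin 3 → Derivation k K K) (l : List (Fin 3)) {n : ℕ} (a : Fin n → X) (f : Fin n → K) :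
    sW X d l (∑ j, a j ⊗ₜ[k] f j) = ∑ j, a j ⊗ₜ[k] wrd d l (f j) := by
  induction l generalizing f with
  | nil => rfl
  | cons i l ih =>
    have h1 : dK X (d i) (∑ j, a j ⊗ₜ[k] f j) = ∑ j, a j ⊗ₜ[k] d i (f j) := by
      rw [map_sum]
      exact Finset.sum_congr rfl fun j _ => dK_tmul _ _ _
    have h2 : sW X d (i :: l) (∑ j, a j ⊗ₜ[k] f j) = sW X d l (dK X (d i) (∑ j, a j ⊗ₜ[k] f j)) := rfl
    rw [h2, h1, ih (fun j => d i (f j))]
    rfl

private theorem wrd_sum {k K : Type} [Field k] [Field K] [Algebra k K]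
    (d : Fin 3 → Derivation k K K) (l : List (Fin 3)) {n : ℕ} (c : Fin n → k) (f : Fin n → K) :
    wrd d l (∑ j, c j • f j) = ∑ j, c j • wrd d l (f j) := by
  induction l generalizing f with
  | nil => rfl
  | cons i l ih =>
    have h1 : d i (∑ j, c j • f j) = ∑ j, c j • d i (f j) := by
      rw [map_sum]
      exact Finset.sum_congr rfl fun j _ => Derivation.map_smul _ _ _
    rw [wrd_cons, h1, ih (fun j => d i (f j))]
    rfl

/-- the algebraic part of (*m) -/
theorem star_algM {k X K : Type} [Field k] [IsAlgClosed k] [Field X] [Field K] [Algebra k X] [Algebra k K]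
    (L₁ : Submodule k K) (B : Subalgebra k K) (hfg : B.FG)
    (hfrac : ∀ x : K, ∃ s ∈ B, s ≠ 0 ∧ x * s ∈ B) (d : Fin 3 → Derivation k K K)
    (hdB : ∀ i, ∀ b ∈ B, d i b ∈ B) (h : K) (hL : ∀ s ∈ L₁, s * h ∈ B) (m : ℕ)
    (hno : ∀ q : Ideal B, q.IsPrime → (∃ t : Fin 2 → B, AlgebraicIndependent k (fun i => Ideal.Quotient.mk q (t i))) →
      ∀ s (hs : s ∈ L₁), s ≠ 0 → (∀ l : List (Fin 3), l.length ≤ m →
        (⟨wrd d l (s * h), wrd_mem B d hdB l _ (hL s hs)⟩ : B) ∈ q) → False) :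
    StarM k X K L₁ m := by
  classical
  intro G hG hG0 Q hQ htr hord
  obtain ⟨n, v, a, hv, hvL, ha, hGv⟩ := exists_repr L₁ G hG hG0
  have hBft : Algebra.FiniteType k B := (Subalgebra.fg_iff_finiteType B).1 hfg
  -- the domain generated by `X` and `B`
  let C' := (X ⊗[k] K) ⧸ Q
  let β' : B →ₐ[k] C' := ((Ideal.Quotient.mkₐ k Q).comp (Algebra.TensorProduct.includeRight : K →ₐ[k] X ⊗[k] K)).comp B.val
  have hβ' : ∀ b : B, β' b = Ideal.Quotient.mk Q ((1 : X) ⊗ₜ[k] (b : K)) := fun b => rfl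
  let C := Algebra.adjoin X (Set.range β')
  have hβC : ∀ b, β' b ∈ C := fun b => Algebra.subset_adjoin ⟨b, rfl⟩
  let β : B →ₐ[k] C := AlgHom.codRestrict β' (C.restrictScalars k) hβC
  have hβ : ∀ b, ((β b : C) : C') = β' b := fun b => rfl
  have hadj : Algebra.adjoin X (Set.range β) = ⊤ := by
    rw [eq_top_iff]
    rintro ⟨x, hx⟩ -
    have hx' : x ∈ Algebra.adjoin X (Set.range β') := hx
    induction hx' using Algebra.adjoin_induction with
    | mem y hy =>
      obtain ⟨b, rfl⟩ := hy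
      exact Algebra.subset_adjoin ⟨b, rfl⟩
    | algebraMap c => exact Subalgebra.algebraMap_mem _ c
    | add y z hy' hz' hy hz =>
      have : (⟨y + z, hx⟩ : C) = ⟨y, hy'⟩ + ⟨z, hz'⟩ := rfl
      rw [this]; exact add_mem (hy hy') (hz hz')
    | mul y z hy' hz' hy hz =>
      have : (⟨y * z, hx⟩ : C) = ⟨y, hy'⟩ * ⟨z, hz'⟩ := rfl
      rw [this]; exact mul_mem (hy hy') (hz hz')
  have hdom : IsDomain C' := Ideal.Quotient.isDomain Q
  have halg : Algebra.IsAlgebraic C C' := by
    refine ⟨fun y => ?_⟩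
    obtain ⟨z, rfl⟩ := Ideal.Quotient.mk_surjective y
    obtain ⟨s, hs, hs0, hz⟩ := exists_den B hfrac Q z
    have hu : (β ⟨s, hs⟩ : C) ≠ 0 := by
      intro hcon2
      have h1 : Ideal.Quotient.mk Q ((1 : X) ⊗ₜ[k] s) = 0 := by
        have h2 := congrArg Subtype.val hcon2
        exact h2
      have h3 : IsUnit ((1 : X) ⊗ₜ[k] s) := by
        refine IsUnit.of_mul_eq_one ((1 : X) ⊗ₜ[k] s⁻¹) ?_
        rw [Algebra.TensorProduct.tmul_mul_tmul, mul_one, mul_inv_cancel₀ hs0]
        rfl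
      exact hQ.ne_top (Ideal.eq_top_of_isUnit_mem _ (Ideal.Quotient.eq_zero_iff_mem.1 h1) h3)
    refine ⟨Polynomial.C (β ⟨s, hs⟩) * Polynomial.X - Polynomial.C ⟨_, hz⟩, ?_, ?_⟩
    · intro hp
      have h1 := congrArg (fun p => Polynomial.coeff p 1) hp
      simp only [Polynomial.coeff_sub, Polynomial.coeff_C_mul, Polynomial.coeff_X_one, mul_one,
        Polynomial.coeff_C_succ, sub_zero, Polynomial.coeff_zero] at h1
      exact hu h1
    · rw [map_sub, map_mul, Polynomial.aeval_C, Polynomial.aeval_C, Polynomial.aeval_X]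
      change Ideal.Quotient.mk Q ((1 : X) ⊗ₜ[k] s) * Ideal.Quotient.mk Q z -
        Ideal.Quotient.mk Q (z * ((1 : X) ⊗ₜ[k] s)) = 0
      rw [map_mul, mul_comm, sub_self]
  have htrC : ((2 : ℕ) : Cardinal) ≤ Algebra.trdeg X C := by
    have h1 : Algebra.trdeg X C + Algebra.trdeg C C' = Algebra.trdeg X C' := by
      have hf1 : FaithfulSMul X C := by
        rw [faithfulSMul_iff_algebraMap_injective]
        exact (algebraMap X C).injective
      exact trdeg_add_eq X C (A := C')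
    rw [trdeg_eq_zero (R := C) (A := C'), add_zero] at h1
    rw [h1]
    exact_mod_cast htr
  -- the relations
  let w : {l : List (Fin 3) // l.length ≤ m} → Fin n → B := fun l j =>
    ⟨wrd d l.1 (v j * h), wrd_mem B d hdB l.1 _ (hL _ (hvL j))⟩
  have hsum : ∀ f : Fin n → K, (∀ j, f j ∈ B) → ∀ b : Fin n → B, (∀ j, (b j : K) = f j) →
      Ideal.Quotient.mk Q (∑ j, a j ⊗ₜ[k] f j) = 0 → ∑ j, a j • β (b j) = 0 := by
    intro f _ b hb h1
    apply Subtype.ext
    rw [AddSubmonoidClass.coe_finsetSum]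
    have h2 : ∀ j, ((a j • β (b j) : C) : C') = Ideal.Quotient.mk Q (a j ⊗ₜ[k] f j) := by
      intro j
      have h3 : a j ⊗ₜ[k] f j = a j • ((1 : X) ⊗ₜ[k] f j) := by
        rw [TensorProduct.smul_tmul', smul_eq_mul, mul_one]
      rw [h3, ← hb j]
      rfl
    rw [Finset.sum_congr rfl (fun j _ => h2 j), ← map_sum, h1]
    rfl
  have hGh : G * ((1 : X) ⊗ₜ[k] h) = ∑ j, a j ⊗ₜ[k] (v j * h) := by
    rw [hGv, Finset.sum_mul]
    refine Finset.sum_congr rfl fun j _ => ?_
    rw [Algebra.TensorProduct.tmul_mul_tmul, mul_one]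
  have hordh : OrdGE Q (m + 1) (G * ((1 : X) ⊗ₜ[k] h)) := by
    rw [mul_comm]
    exact OrdGE_mul_left _ hord
  have hw : ∀ o, ∑ j, a j • β (w o j) = 0 := by
    intro o
    refine hsum (fun j => wrd d o.1 (v j * h)) (fun j => wrd_mem B d hdB o.1 _ (hL _ (hvL j))) _
      (fun j => rfl) ?_
    rw [Ideal.Quotient.eq_zero_iff_mem, ← sW_sum, ← hGh]
    exact sW_mem d Q m _ hordh o.1 o.2
  obtain ⟨q, hq, ht, l, hl, hlq⟩ := spn β hadj htrC a ha w hw
  have hs : ∑ j, l j • v j ∈ L₁ := sum_mem fun j _ => L₁.smul_mem _ (hvL j)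
  have hs0 : ∑ j, l j • v j ≠ 0 := by
    intro hcon2
    apply hl
    funext j
    exact (Fintype.linearIndependent_iff.1 hv) l hcon2 j
  refine hno q hq ht (∑ j, l j • v j) hs hs0 ?_
  intro o ho
  have h1 := hlq ⟨o, ho⟩
  have h2 : (⟨wrd d o ((∑ j, l j • v j) * h), wrd_mem B d hdB o _ (hL _ hs)⟩ : B) =
      ∑ j, l j • w ⟨o, ho⟩ j := by
    apply Subtype.ext
    rw [AddSubmonoidClass.coe_finsetSum]
    change wrd d o ((∑ j, l j • v j) * h) = ∑ j, l j • wrd d o (v j * h)
    rw [← wrd_sum, Finset.sum_mul]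
    exact congrArg (wrd d o) (Finset.sum_congr rfl fun j _ => smul_mul_assoc _ _ _)
  rw [h2]
  exact h1

end Pool.Agent.H24.TV
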