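import Pool.Agent.H24.TV.CbM
import Pool.Agent.H39.TU.THII

/-!
# [H24 TV ThM] THEOREM V (MP_e49dc9_ag), Theorem II with (*m)

As `H39/TU/THII.lean` (`theoremII`), with `caseBM` instead of `caseB`.
-/

set_option autoImplicit false

namespace Pool.Agent.H24.TV

open Pool.Agent.H54.RV Pool.Agent.H83.TU Pool.Agent.H24.TU Pool.Agent.H39.TU

variable {k K : Type} [Field k] [Field K] [Algebra k K] {X : Mod k K}

theorem theoremII_M [IsAlgClosed k] [CharZero k] (h : Hyp X) (hGF : GF X) (hUN : UN X) (hUF : UF X)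
    (hsm : ∀ x, SmP X x) (D : Cart X) (hD : Ample D) (m : ℕ)
    (hst : ∀ (Y : Type) [Field Y] [Algebra k Y], StarM k Y K (secL D 1) m)
    (F : IntermediateField k K) (hF : Algebra.trdeg F K = 1) (γ n₀ : ℕ)
    (hγ : ∀ n, n₀ ≤ n → Module.finrank F (Submodule.span F (secL D n : Set K)) ≤ γ * n)
    (hh : (γ + m + 3).choose 3 < h0 D 1) :
    RF h.var h.gen F D ≤ γ ∧
      ∃ M : Cart X, Effective M ∧ ¬ Effective M⁻¹ ∧ RF h.var h.gen F M = 0 := by
  refine ⟨rf_le h hGF hUN hUF D hD F hF γ n₀ hγ, caseA h F hF fun p => ?_⟩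
  by_contra hcon
  have hξ : Algebra.trdeg k (X.kap (cenK h.var h.gen (down p))) ≤ 1 := by
    have h1 : Algebra.trdeg k (X.kap (cenK h.var h.gen (down p))) < 2 := not_le.1 hcon
    have h2 : Algebra.trdeg k (X.kap (cenK h.var h.gen (down p))) < Cardinal.aleph0 :=
      h1.trans (by exact_mod_cast Cardinal.natCast_lt_aleph0 (n := 2))
    obtain ⟨n, hn⟩ := Cardinal.lt_aleph0.1 h2
    rw [hn] at h1 ⊢
    have h3 : n < 2 := by exact_mod_cast h1
    have h4 : n ≤ 1 := by omega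
    exact_mod_cast h4
  have : Module.Finite F (IsLocalRing.ResidueField p.R) :=
    Module.finite_of_finrank_pos (deg_pos hF (F_fg h.var h.gen F) p)
  exact caseBM h D hD (hGF.1 D) (frac_sec h hUF D hD) F p γ n₀ m hγ hh hξ (hsm _) (hst _)

end Pool.Agent.H24.TV
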